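import Pool.Agent.Lib.MP_bc213e_ag.SB.L.Deg

/-! Sections of adelic lattices: lower and upper bounds, flags. -/

namespace Pool.Agent.Lib.MP_bc213e_ag.SB.AL

open Pool.Agent.Lib.MP_bc213e_ag.Hyp WithZero Module Filter

noncomputable section

variable {k I : Type} [Field k] [Algebra ℂ k] {C : VC k I} {W : Type} [AddCommGroup W]
  [Module k W] (A : AL C W)

/-- The lattice cut down by a functional. -/
def cut (φ : W →ₗ[k] k) (z : I → Zm) (hz : ∀ᶠ i in cofinite, z i = 0) : AL C W where
  N i x := max (A.N i x) (z i * C.v i (φ x))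
  smul i c x := by rw [A.smul, map_smul, smul_eq_mul, map_mul, mul_max, mul_left_comm]
  add i x y := max_le ((A.add i x y).trans (max_le_max (le_max_left _ _) (le_max_left _ _))) (by
    rw [map_add]
    exact (mul_le_mul_right ((C.v i).map_add _ _) _).trans ((mul_max _ _ _).trans_le
      (max_le_max (le_max_right _ _) (le_max_right _ _))))
  fin x := by
    obtain ⟨M, hM⟩ := A.fin x
    exact exists_bd _ ((hz.and (ev_zero M)).mono fun i hi => by simpa [hi.1, hi.2] using hM i)
  bd ψ := (A.bd ψ).imp fun M h i x => (h i x).trans (mul_le_mul_right (le_max_left _ _) _)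

variable [FiniteDimensional k W]

section

variable [Module ℂ W] [IsScalarTower ℂ k W]

theorem fd_Γ (M : I →₀ ℤ) : FiniteDimensional ℂ (A.Γ M) := by
  choose B hB using fun l => A.bd ((finBasis k W).coord l)
  have := C.fd
  refine FiniteDimensional.of_injective (LinearMap.pi fun l =>
    ((((finBasis k W).coord l).restrictScalars ℂ).domRestrict (A.Γ M)).codRestrict
      (Gm C.v C.triv (B l + M)) fun x i => (hB l i x).trans ((mul_le_mul_right (x.2 i) _).trans_eq
        (exp_add _ _).symm)) fun x y h => Subtype.ext ((finBasis k W).ext_elem fun l => ?_)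
  exact congrArg Subtype.val (congrFun h l)

/-- The lower bound for the number of sections. -/
def Low (δ : ℚ) : Prop := ∀ M : I →₀ ℤ, ∃ c : ℚ, ∀ t : ℕ,
  t * (δ + finrank k W * (dg C.d M + C.σ)) - c ≤ finrank ℂ (A.Γ (M + t • C.D))

theorem low_cut [DecidableEq I] {δ : ℚ} (h : A.Low δ) {φ : W →ₗ[k] k} {B : I →₀ ℤ}
    (hB : ∀ i x, C.v i (φ x) ≤ exp (B i) * A.N i x) (i : I) (hz) {δ' : ℚ} (hδ : δ' + C.d i ≤ δ) :
    (A.cut φ (Pi.single i (exp (1 - B i))) hz).Low δ' := fun M => by
  obtain ⟨c, hc⟩ := h M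
  obtain ⟨c', hc'⟩ := C.mod (B - Finsupp.single i 1 + M) i
  refine ⟨c + c', fun t => ?_⟩
  have := C.fd
  have := (A.cut φ (Pi.single i (exp (1 - B i))) hz).fd_Γ
  have h1 := rank_step (φ.restrictScalars ℂ) (X := A.Γ (M + t • C.D))
    (X₀ := (A.cut φ (Pi.single i (exp (1 - B i))) hz).Γ (M + t • C.D))
    (Y₀ := Gm C.v C.triv (B - Finsupp.single i 1 + M + t • C.D))
    (Y₁ := Gm C.v C.triv (B - Finsupp.single i 1 + M + Finsupp.single i 1 + t • C.D))
    (fun x hx j => (hx j).trans (exp_le_exp.2 (by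
      simp only [Finsupp.add_apply, Finsupp.single_apply]
      split_ifs <;> omega)))
    (fun x hx j => (hB j x).trans ((mul_le_mul_right (hx j) _).trans_eq (by
      rw [← exp_add]
      simp only [Finsupp.add_apply, Finsupp.sub_apply]
      exact congrArg exp (by ring))))
    fun x hx h' j => max_le (hx j) (by
      rcases eq_or_ne j i with rfl | hj
      · rw [Pi.single_eq_same]
        refine (mul_le_mul_right (h' j) _).trans_eq ?_
        rw [← exp_add]
        simp only [Finsupp.add_apply, Finsupp.sub_apply, Finsupp.single_eq_same]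
        exact congrArg exp (by ring)
      · simp [Pi.single_eq_of_ne hj])
  have h2 := hc t
  have h3 := hc' t
  have h4 := mul_le_mul_of_nonneg_left hδ (Nat.cast_nonneg (α := ℚ) t)
  have h5 := (Nat.cast_le (α := ℚ)).2 h1
  push_cast at h5
  linarith

theorem low_of_le {b : Basis (Fin (finrank k W)) k W} {e} {E : I →₀ ℤ} (h : A.Fr b e E) (n : ℕ) :
    ∀ (A' : AL C W) (E' : I →₀ ℤ), A'.Top b E' → (∀ i x, A'.N i x ≤ A.N i x) →
      dg (fun _ => 1) E' < dg (fun _ => 1) E + n → A'.Low (dg C.d E') → A.Low (dg C.d E) := by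
  classical
  induction n with
  | zero =>
    intro A' E' h1 h2 h3
    exact absurd (dg_mono (fun _ => zero_le_one) fun i => Top.mono A' h1 h.top (h2 i))
      (by simpa using h3)
  | succ n ih =>
    intro A' E' h1 h2 h3 h4
    by_cases hn : ∀ i x, A.N i x ≤ A'.N i x
    · intro M
      obtain ⟨c, hc⟩ := h4 M
      refine ⟨c, fun t => ?_⟩
      have h5 : A.Γ (M + t • C.D) = A'.Γ (M + t • C.D) := Submodule.ext fun x =>
        forall_congr' fun i => by rw [le_antisymm (hn i x) (h2 i x)]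
      have h6 : E = E' := Finsupp.ext fun i =>
        le_antisymm (Top.mono A' h1 h.top (h2 i)) (Top.mono A h.top h1 (hn i))
      rw [h5, h6]
      exact hc t
    push Not at hn
    obtain ⟨i, x, hx⟩ := hn
    obtain ⟨l, hl⟩ : ∃ l, A'.N i x < C.v i ((e i).coord l x) := by
      by_contra h5
      push Not at h5
      exact hx.not_ge (h.N_le h5)
    obtain ⟨B, y, b1, b2, b3⟩ := A'.exists_ex (φ := (e i).coord l) fun h5 => by simp [h5] at hl
    have hB : 1 ≤ B i := by
      by_contra h5
      exact hl.not_ge ((b1 i x).trans (mul_le_of_le_one_left' (exp_le_exp.2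
        (show B i ≤ 0 by omega))))
    have hz : ∀ᶠ j in cofinite, (Pi.single i (exp (1 - B i)) : I → Zm) j = 0 :=
      (eventually_cofinite_ne i).mono fun j hj => Pi.single_eq_of_ne hj _
    obtain ⟨e', E'', h5⟩ := (A'.cut ((e i).coord l) _ hz).exists_fr b
    obtain ⟨c, hc⟩ := C.exists_val i (B i)
    have h6 : ∀ j, (E'' + Finsupp.single i 1 : I →₀ ℤ) j ≤ E' j := fun j => by
      rcases eq_or_ne j i with rfl | hj
      · rw [Finsupp.add_apply, Finsupp.single_eq_same]
        refine Top.lt A' h1 h5 (fun x => le_max_left _ _) (x := c • y j) ?_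
          (lt_of_lt_of_le ?_ (le_max_right _ _))
        · rw [A'.smul, hc, b3, ← exp_add, add_neg_cancel, exp_zero]
        · rw [Pi.single_eq_same, map_smul, b2, smul_eq_mul, mul_one, hc, ← exp_add, ← exp_zero,
            exp_lt_exp]
          omega
      · rw [Finsupp.add_apply, Finsupp.single_eq_of_ne hj, add_zero]
        exact Top.mono A' h1 h5.top fun x => le_max_left _ _
    have h7 := dg_mono (d := fun _ => 1) (fun _ => zero_le_one) h6
    have h8 := dg_mono C.d_nonneg h6
    rw [dg_add, dg_single, Int.cast_one, one_mul] at h7 h8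
    refine ih _ E'' h5.top (fun j x => max_le (h2 j x) ?_) (by push_cast at h3; linarith)
      (A'.low_cut h4 b1 i hz h8)
    rcases eq_or_ne j i with rfl | hj
    · rw [Pi.single_eq_same]
      exact (mul_le_of_le_one_left' (exp_le_exp.2 (show 1 - B j ≤ 0 by omega))).trans
        (h.co j x l)
    · simp [Pi.single_eq_of_ne hj]

theorem low : A.Low A.deg := by
  classical
  obtain ⟨e, E, h⟩ := A.exists_fr (finBasis k W)
  rw [h.top.deg_eq]
  generalize finBasis k W = b at h
  choose B hB using fun l => A.bd (b.coord l)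
  obtain ⟨M₀, hM⟩ := exists_bd (fun i => Finset.univ.sup fun l => exp (B l i))
    ((eventually_all.2 fun l => ev_zero (B l)).mono fun i hi => Finset.sup_le fun l _ => by
      rw [hi, exp_zero])
  choose c hc using fun i => C.exists_val i (M₀ i)
  have hc0 : ∀ i, c i ≠ 0 := fun i e => exp_ne_zero (by rw [← hc i, e, map_zero])
  let u : I → kˣ := fun i => if M₀ i = 0 then 1 else Units.mk0 _ (hc0 i)
  have hu : ∀ i, C.v i (u i) = exp (M₀ i) := fun i => by
    simp only [u]
    split_ifs with h0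
    · simp [h0]
    · exact hc i
  have h1 : ∀ᶠ i in cofinite, (b.unitsSMul fun _ => u i) = b := (ev_zero M₀).mono fun i hi => by
    ext l
    simp [u, hi, Basis.unitsSMul_apply]
  have h2 := fr_ofBases (C := C) h1 (E := finrank k W • M₀) fun i => by
    rw [Basis.det_unitsSMul_self, Finsupp.smul_apply, exp_nsmul]
    simp [hu]
  have h3 : ∀ i x z, (ofBases C b _ h1).N i x ≤ z ↔ ∀ l, C.v i (b.repr x l) ≤ exp (M₀ i) * z :=
    fun i x z => ofBases_le.trans (forall_congr' fun l => by
      rw [Basis.repr_unitsSMul, Units.smul_def, smul_eq_mul, map_mul, Units.val_inv_eq_inv_val,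
        map_inv₀, hu, inv_mul_le_iff₀ exp_pos])
  obtain ⟨n, hn⟩ := exists_nat_gt (dg (fun _ => 1) (finrank k W • M₀) - dg (fun _ => 1) E)
  refine A.low_of_le h n _ _ h2.top (fun i x => (h3 i x _).2 fun l => (hB l i x).trans
    (mul_le_mul_left ((Finset.le_sup (f := fun l => exp (B l i)) (Finset.mem_univ l)).trans
      (hM i)) _)) (by linarith) fun M => ?_
  obtain ⟨c', hc'⟩ := C.low (M₀ + M)
  refine ⟨finrank k W * c', fun t => ?_⟩
  have := C.fd
  have := (ofBases C b _ h1).fd_Γ
  have h4 := LinearMap.finrank_le_finrank_of_injective (f := LinearMap.codRestrict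
    ((ofBases C b _ h1).Γ (M + t • C.D)) ((b.equivFun.symm.toLinearMap.restrictScalars ℂ) ∘ₗ
      LinearMap.pi fun l => (Gm C.v C.triv (M₀ + M + t • C.D)).subtype ∘ₗ LinearMap.proj l)
    fun x i => (h3 i _ _).2 fun l => by
      exact (congrArg _ (congrFun (b.equivFun.apply_symm_apply fun l => (x l : k)) l)).trans_le
        (((x l).2 i).trans_eq (by rw [add_assoc, Finsupp.add_apply, exp_add])))
    fun x y h => funext fun l => Subtype.ext
      (congrFun (b.equivFun.symm.injective (congrArg Subtype.val h)) l)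
  rw [Module.finrank_pi_fintype, Finset.sum_const, Finset.card_univ, Fintype.card_fin,
    smul_eq_mul] at h4
  have h5 := mul_le_mul_of_nonneg_left (hc' t) (Nat.cast_nonneg (α := ℚ) (finrank k W))
  have h6 := (Nat.cast_le (α := ℚ)).2 h4
  rw [dg_add] at h5
  rw [dg_nsmul]
  push_cast at h6
  linarith

end

theorem dual_siegel [Nontrivial W] {i₀ : I} (hd : 0 < C.d i₀) {μ : ℚ}
    (hμ : A.deg ≤ finrank k W * μ) : ∃ (φ : W →ₗ[k] k) (M : I →₀ ℤ), φ ≠ 0 ∧
      (∀ i x, C.v i (φ x) ≤ exp (M i) * A.N i x) ∧ dg C.d M ≤ μ - C.σ + C.d i₀ := by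
  obtain ⟨e, E, h⟩ := A.exists_fr (finBasis k W)
  rw [h.top.deg_eq] at hμ
  generalize finBasis k W = b at h
  have h1 : ∀ᶠ i in cofinite, (e i).dualBasis = b.dualBasis := h.ae.mono fun i hi => by rw [hi]
  have h2 := fr_ofBases h1 (E := -E) fun i => by
    have := congrArg (C.v i) (det_dual b (e i))
    rw [map_mul, h.det, map_one] at this
    rw [eq_inv_of_mul_eq_one_left this, Finsupp.neg_apply, exp_neg]
  obtain ⟨c, hc⟩ := (ofBases C _ _ h1).low (Finsupp.single i₀ (⌊(μ - C.σ) / C.d i₀⌋ + 1))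
  rw [h2.top.deg_eq, dg_neg, Subspace.dual_finrank_eq, dg_single] at hc
  have h3 := (div_lt_iff₀ hd).1 (Int.lt_floor_add_one ((μ - C.σ) / C.d i₀))
  have h4 := (le_div_iff₀ hd).1 (Int.floor_le ((μ - C.σ) / C.d i₀))
  generalize ⌊(μ - C.σ) / C.d i₀⌋ = n at hc h3 h4
  have h5 : (0 : ℚ) < finrank k W := Nat.cast_pos.2 finrank_pos
  have h6 : 0 < -dg C.d E + finrank k W * (((n + 1 : ℤ) : ℚ) * C.d i₀ + C.σ) := by
    push_cast
    nlinarith
  obtain ⟨t, ht⟩ := exists_nat_gt
    (c / (-dg C.d E + finrank k W * (((n + 1 : ℤ) : ℚ) * C.d i₀ + C.σ)))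
  have h7 := (sub_pos.2 ((div_lt_iff₀ h6).1 ht)).trans_le (hc t)
  obtain ⟨φ, hφ, h8⟩ := Submodule.exists_mem_ne_zero_of_ne_bot (p := (ofBases C _ _ h1).Γ
    (Finsupp.single i₀ (n + 1) + t • C.D)) fun h0 => by rw [h0] at h7; simp at h7
  refine ⟨φ, Finsupp.single i₀ (n + 1) + t • C.D, h8, fun i x => ?_, ?_⟩
  · conv_lhs => rw [← (e i).sum_repr x, map_sum]
    refine (C.v i).map_sum_le fun l _ => ?_
    rw [map_smul, smul_eq_mul, map_mul, mul_comm, ← Basis.dualBasis_repr]
    exact mul_le_mul' (ofBases_le.1 (hφ i) l) (h.co i x l)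
  · rw [dg_add, dg_nsmul, C.degD, dg_single]
    push_cast
    linarith

omit [FiniteDimensional k W] in
theorem flags {i₀ : I} (hd : 0 < C.d i₀) {μ : ℚ} (n : ℕ) : ∀ (W : Type) [AddCommGroup W]
    [Module k W] [FiniteDimensional k W] (A : AL C W), finrank k W = n →
    (∀ (U : Type) [AddCommGroup U] [Module k U] [FiniteDimensional k U] (f : U →ₗ[k] W) (hf),
      (A.comap f hf).deg ≤ finrank k U * μ) →
    ∃ (φ : Fin n → W →ₗ[k] k) (φ' : I → Fin n → W →ₗ[k] k) (M : Fin n → I →₀ ℤ),
      (∀ x, (∀ m, φ m x = 0) → x = 0) ∧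
      (∀ i m, φ' i m - φ m ∈ Submodule.span k (φ '' {l | l.1 < m.1})) ∧
      (∀ i m x, C.v i (φ' i m x) ≤ exp (M m i) * A.N i x) ∧
      ∀ m, dg C.d (M m) ≤ μ - C.σ + C.d i₀ := by
  induction n with
  | zero =>
    intro W _ _ _ A hn _
    have := finrank_zero_iff.1 hn
    exact ⟨Fin.elim0, fun _ => Fin.elim0, Fin.elim0, fun x _ => Subsingleton.elim _ _,
      fun _ m => m.elim0, fun _ m => m.elim0, fun m => m.elim0⟩
  | succ n ih =>
    intro W _ _ _ A hn h
    have : Nontrivial W := (finrank_pos_iff (R := k)).1 (by omega)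
    obtain ⟨φ, M, h0, h1, h2⟩ := A.dual_siegel hd (h W LinearMap.id Function.injective_id)
    obtain ⟨B, y, b1, b2, b3⟩ := A.exists_ex h0
    obtain ⟨ψ, ψ', M', p1, p2, p3, p4⟩ := ih (LinearMap.ker φ)
      (A.comap (LinearMap.ker φ).subtype Subtype.val_injective)
      (Nat.succ_injective ((Module.Dual.finrank_ker_add_one_of_ne_zero h0).trans hn))
      fun U _ _ _ f hf => h U ((LinearMap.ker φ).subtype ∘ₗ f) (Subtype.val_injective.comp hf)
    let P : ∀ z, φ z = 1 → W →ₗ[k] LinearMap.ker φ := fun z hz =>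
      (LinearMap.id - φ.smulRight z).codRestrict _ fun x => by simp [hz]
    refine ⟨Fin.cons φ fun m => ψ m ∘ₗ P _ (b2 i₀), fun i => Fin.cons φ fun m => ψ' i m ∘ₗ P _ (b2 i),
      Fin.cons M M', fun x hx => ?_, fun i m => ?_, fun i m => ?_, fun m => ?_⟩
    · have h3 : φ x = 0 := hx 0
      simpa [P, h3] using congrArg Subtype.val (p1 _ fun m => hx m.succ)
    · refine Fin.cases (by simp) (fun m => ?_) m
      have h3 : ψ' i m ∘ₗ P _ (b2 i) - ψ m ∘ₗ P _ (b2 i₀) = (ψ' i m - ψ m) ∘ₗ P _ (b2 i₀) +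
          ψ' i m ⟨y i₀ - y i, by simp [b2]⟩ • φ := LinearMap.ext fun x => by
        have : P _ (b2 i) x = P _ (b2 i₀) x + φ x • ⟨y i₀ - y i, by simp [b2]⟩ :=
          Subtype.ext (by simp [P, smul_sub])
        simp only [LinearMap.sub_apply, LinearMap.comp_apply, LinearMap.add_apply,
          LinearMap.smul_apply, this, map_add, map_smul, smul_eq_mul]
        ring
      change ψ' i m ∘ₗ P _ (b2 i) - ψ m ∘ₗ P _ (b2 i₀) ∈ _
      rw [h3]
      refine add_mem ?_ (Submodule.smul_mem _ _ (Submodule.subset_span ⟨0, m.succ_pos, rfl⟩))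
      refine Submodule.span_mono ?_ (Submodule.apply_mem_span_image_of_mem_span
        (LinearMap.lcomp k k (P _ (b2 i₀))) (p2 i m))
      rintro _ ⟨_, ⟨l, hl, rfl⟩, rfl⟩
      exact ⟨l.succ, Nat.succ_lt_succ hl, rfl⟩
    · exact Fin.cases (h1 i) (fun m x => (p3 i m _).trans
        (mul_le_mul_right (A.proj_le (b1 i) (b3 i) x) _)) m
    · exact Fin.cases h2 p4 m

omit [FiniteDimensional k W] in
theorem up (n : ℕ) : ∀ (W : Type) [AddCommGroup W] [Module k W] [FiniteDimensional k W]
    [Module ℂ W] [IsScalarTower ℂ k W] (A : AL C W) (b : Basis (Fin n) k W) (B : Fin n → I →₀ ℤ),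
    (∀ l i, A.N i (b l) ≤ exp (B l i)) → ∃ M : Fin n → I →₀ ℤ, ∑ l, dg C.d (M l) = A.deg ∧
      (∀ l, -dg C.d (B l) ≤ dg C.d (M l)) ∧
      ∀ T, finrank ℂ (A.Γ T) ≤ ∑ l, finrank ℂ (Gm C.v C.triv (M l + T)) := by
  induction n with
  | zero =>
    intro W _ _ _ _ _ A b B _
    have := b.repr.toEquiv.subsingleton
    obtain ⟨e, E, h⟩ := A.exists_fr b
    refine ⟨Fin.elim0, ?_, fun l => l.elim0, fun T => by simp [finrank_zero_of_subsingleton]⟩
    have : E = 0 := Finsupp.ext fun i => exp_injective (by simpa [Basis.det_apply] using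
      (h.det i).symm)
    rw [h.top.deg_eq, this, dg_zero, Finset.univ_eq_empty, Finset.sum_empty]
  | succ n ih =>
    intro W _ _ _ _ _ A b B hB
    let f := Fintype.linearCombination k fun l : Fin n => b l.succ
    have hf : Function.Injective f :=
      (b.linearIndependent.comp _ (Fin.succ_injective n)).fintypeLinearCombination_injective
    have h0 : b.coord 0 (b 0) = 1 := by simp
    have hφ : LinearMap.range f = LinearMap.ker (b.coord 0) := Submodule.ext fun x => ⟨by
      rintro ⟨c, rfl⟩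
      simp [f, Fintype.linearCombination_apply], fun hx => ⟨fun l => b.repr x l.succ, by
        have h1 : b.repr x 0 = 0 := hx
        have h2 := b.sum_repr x
        rwa [Fin.sum_univ_succ, h1, zero_smul, zero_add] at h2⟩⟩
    obtain ⟨M, y, b1, b2, b3⟩ := A.exists_ex (φ := b.coord 0) fun h => by simp [h] at h0
    obtain ⟨M', p1, p2, p3⟩ := ih (Fin n → k) (A.comap f hf) (Pi.basisFun k _) (fun l => B l.succ)
      fun l i => (congrArg (A.N i) (by simp [f])).trans_le (hB l.succ i)
    refine ⟨Fin.cons M M', ?_, fun l => ?_, fun T => ?_⟩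
    · rw [A.deg_add f hf hφ h0 b1 b2 b3, ← p1]
      simp [Fin.sum_univ_succ, add_comm]
    · refine Fin.cases ?_ (fun l => p2 l) l
      rw [← dg_neg]
      refine dg_mono C.d_nonneg fun i => ?_
      have := (b1 i (b 0)).trans (mul_le_mul_right (hB 0 i) _)
      rw [h0, map_one, ← exp_add, ← exp_zero, exp_le_exp] at this
      simp only [Finsupp.neg_apply, Fin.cons_zero]
      omega
    · have := C.fd
      have := (A.comap f hf).fd_Γ
      have h1 := rank_step ((b.coord 0).restrictScalars ℂ) (X := A.Γ T)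
        (X₀ := ((A.comap f hf).Γ T).map (f.restrictScalars ℂ)) (Y₀ := ⊥)
        (Y₁ := Gm C.v C.triv (M + T)) bot_le
        (fun x hx i => (b1 i x).trans ((mul_le_mul_right (hx i) _).trans_eq (exp_add _ _).symm))
        fun x hx h => by
          obtain ⟨c, rfl⟩ : x ∈ LinearMap.range f := hφ ▸ h
          exact ⟨c, hx, rfl⟩
      have h2 := Submodule.finrank_map_le (f.restrictScalars ℂ) ((A.comap f hf).Γ T)
      have h3 := p3 T
      rw [Fin.sum_univ_succ]
      exact (Nat.le_add_right _ _).trans (h1.trans ((add_comm _ _).trans_le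
        (add_le_add_right (h2.trans h3) _)))

end

end Pool.Agent.Lib.MP_bc213e_ag.SB.AL
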