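import Mathlib

/-! Forms without a common zero, powers in a field extension, and a growth estimate. -/

namespace Pool.Agent.Lib.MP_bc213e_ag.SB

open Module Submodule MvPolynomial

variable {k : Type} [Field k] {ι R : Type} [Fintype ι] [DecidableEq ι]

omit [Fintype ι] [DecidableEq ι] in
/-- The component of degree `n` of an element of the ideal of the `F m`. -/
theorem span_null_comp {j : ℕ} (F : R → MvPolynomial ι k) (hF : ∀ m, (F m).IsHomogeneous j)
    (n : ℕ) {P : MvPolynomial ι k} (hP : P ∈ Ideal.span (Set.range F)) (G : MvPolynomial ι k) :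
    homogeneousComponent n (G * P) ∈
      span k {Q | ∃ (m : R) (γ : ι →₀ ℕ), j + γ.degree = n ∧ Q = F m * monomial γ 1} := by
  induction hP using Submodule.span_induction generalizing G with
  | mem x hx =>
    obtain ⟨m, rfl⟩ := hx
    induction G using MvPolynomial.induction_on' with
    | monomial γ c =>
      have h : (F m * monomial γ (1 : k)).IsHomogeneous (j + γ.degree) :=
        (hF m).mul (isHomogeneous_monomial 1 rfl)
      have e : monomial γ c * F m = c • (F m * monomial γ (1 : k)) := by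
        rw [mul_comm, ← mul_smul_comm, smul_monomial, smul_eq_mul, mul_one]
      rw [e, map_smul, homogeneousComponent_of_mem h]
      split_ifs with hn
      · exact smul_mem _ _ (subset_span ⟨m, γ, hn.symm, rfl⟩)
      · simp
    | add p q hp hq => rw [add_mul, map_add]; exact add_mem hp hq
  | zero => simp
  | add x y _ _ hx hy => rw [mul_add, map_add]; exact add_mem (hx G) (hy G)
  | smul a x _ hx => rw [smul_eq_mul, ← mul_assoc]; exact hx _

omit [DecidableEq ι] in
/-- `MvPolynomial.vanishingIdeal_zeroLocus_eq_radical`: a power of each variable is in the ideal of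
the `F m`, so every monomial of degree at least `B` is. Strong induction on `n`: take the component
of degree `n` of `∑ G m * F m` (`DirectSum.coe_decompose_mul_of_right_mem`), `Fin.cons`. -/
theorem span_null {j : ℕ} (hj : 0 < j) (F : R → MvPolynomial ι k)
    (hF : ∀ m, (F m).IsHomogeneous j)
    (nd : ∀ c : ι → AlgebraicClosure k, (∀ m, aeval c (F m) = 0) → c = 0) :
    ∃ B : ℕ, ∀ n, homogeneousSubmodule ι k n ≤ span k {P | ∃ (p : ℕ) (τ : Fin p → R) (β : ι →₀ ℕ),
      β.degree < B ∧ j * p + β.degree = n ∧ P = (∏ s, F (τ s)) * monomial β 1} := by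
  classical
  have hX : ∀ i : ι, ∃ e : ℕ, (X i : MvPolynomial ι k) ^ e ∈ Ideal.span (Set.range F) := fun i => by
    change (X i : MvPolynomial ι k) ∈ (Ideal.span (Set.range F)).radical
    rw [← vanishingIdeal_zeroLocus_eq_radical (K := AlgebraicClosure k), zeroLocus_span,
      mem_vanishingIdeal_iff]
    intro c hc
    rw [nd c fun m => hc _ ⟨m, rfl⟩]
    simp
  choose e he using hX
  refine ⟨∑ i, e i + 1, fun n => ?_⟩
  induction n using Nat.strong_induction_on with
  | _ n ih =>
  intro P hP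
  rw [P.as_sum]
  refine sum_mem fun β hβ => ?_
  have hd : β.degree = n := by
    by_contra h
    exact mem_support_iff.1 hβ (IsHomogeneous.coeff_eq_zero hP h)
  have e1 : monomial β (coeff β P) = coeff β P • monomial β (1 : k) := by
    rw [smul_monomial, smul_eq_mul, mul_one]
  rw [e1]
  refine smul_mem _ _ ?_
  by_cases hn : n < ∑ i, e i + 1
  · exact subset_span ⟨0, Fin.elim0, β, hd ▸ hn, by simp [hd], by simp⟩
  obtain ⟨i, hi⟩ : ∃ i, e i ≤ β i := by
    by_contra h
    push Not at h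
    refine hn (Nat.lt_succ_of_le ?_)
    rw [← hd, Finsupp.degree_eq_sum]
    exact Finset.sum_le_sum fun i _ => (h i).le
  have e2 : monomial β (1 : k) = monomial (β - Finsupp.single i (e i)) 1 * X i ^ e i := by
    rw [X_pow_eq_monomial, monomial_mul, mul_one,
      tsub_add_cancel_of_le (Finsupp.single_le_iff.2 hi)]
  have h1 := span_null_comp F hF n (he i) (monomial (β - Finsupp.single i (e i)) 1)
  rw [← e2, homogeneousComponent_eq_self (isHomogeneous_monomial 1 hd)] at h1
  refine span_le.2 ?_ h1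
  rintro _ ⟨m, γ, hγ, rfl⟩
  have h2 := ih γ.degree (by omega) (isHomogeneous_monomial (1 : k) rfl)
  refine Submodule.mem_comap.1
    ((span_le.2 ?_ : _ ≤ Submodule.comap (LinearMap.mulLeft k (F m)) _) h2)
  rintro _ ⟨p, τ, δ, h3, h4, rfl⟩
  refine subset_span ⟨p + 1, Fin.cons m τ, δ, h3, by rw [mul_add]; omega, ?_⟩
  simp [Fin.prod_univ_succ, mul_assoc]

open TensorProduct in
theorem pow_nondeg [CharZero k] {K : Type} [Field K] [Algebra k K] {j : ℕ} (hj : 0 < j)
    {r : ι → K} (hr : LinearIndependent k r) (c : ι → AlgebraicClosure k)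
    (h : ∀ ψ : K →ₗ[k] k, ∑ τ : Fin j → ι, ψ (∏ s, r (τ s)) • ∏ s, c (τ s) = 0) : c = 0 := by
  let E := IntermediateField.adjoin k (Set.range c)
  have : FiniteDimensional k E :=
    IntermediateField.finiteDimensional_adjoin fun x _ => Algebra.IsIntegral.isIntegral x
  have : Algebra.FormallyUnramified k E := .of_isSeparable k E
  have : IsReduced (K ⊗[k] E) := Algebra.FormallyUnramified.isReduced_of_field K (K ⊗[k] E)
  let c' : ι → E := fun l => ⟨c l, IntermediateField.subset_adjoin _ _ ⟨l, rfl⟩⟩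
  let b := Module.finBasis k E
  have hb : ∀ (x : K) (y : E) i, (Algebra.TensorProduct.basis K b).repr (x ⊗ₜ y) i =
      b.repr y i • x := fun x y i => by
    rw [Algebra.TensorProduct.basis_repr_tmul, Finsupp.smul_apply, Finsupp.mapRange_apply,
      smul_eq_mul, mul_comm, Algebra.smul_def]
  have hp : ∀ τ : Fin j → ι, ∏ s, r (τ s) ⊗ₜ[k] c' (τ s) = (∏ s, r (τ s)) ⊗ₜ[k] ∏ s, c' (τ s) :=
    fun τ => Finset.induction_on Finset.univ (by simp [Algebra.TensorProduct.one_def])
      fun a t ha ih => by simp only [Finset.prod_insert ha, ih, Algebra.TensorProduct.tmul_mul_tmul]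
  have h0 : ∑ l, r l ⊗ₜ[k] c' l = 0 := by
    refine this.eq_zero _ ⟨j, (Fintype.sum_pow (fun l => r l ⊗ₜ[k] c' l) j).trans
      ((Algebra.TensorProduct.basis K b).repr.injective ?_)⟩
    ext i
    rw [map_zero, Finsupp.zero_apply, ← Module.forall_dual_apply_eq_zero_iff k]
    intro ψ
    have h1 : ∑ τ : Fin j → ι, ψ (∏ s, r (τ s)) • ∏ s, c' (τ s) = 0 :=
      Subtype.ext (by simpa [c'] using h ψ)
    have h2 := congrArg (b.repr · i) h1
    simp only [hp, map_sum, Finsupp.finsetSum_apply, hb,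
      map_smul, Finsupp.smul_apply, smul_eq_mul, map_zero, Finsupp.zero_apply] at h2 ⊢
    simpa only [mul_comm] using h2
  funext l
  refine congrArg Subtype.val (show c' l = 0 from b.repr.injective (Finsupp.ext fun i => ?_))
  have h3 := congrArg ((Algebra.TensorProduct.basis K b).repr · i) h0
  simp only [map_sum, Finsupp.finsetSum_apply, hb, map_zero, Finsupp.zero_apply] at h3
  simpa using Fintype.linearIndependent_iff.1 hr _ h3 l

/-- If `σ < 0` then `c > 0` and `ρ a ≤ θ * ρ (a + A)` with `θ = 1 + σ / c < 1`, so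
`ρ (a₀ + m * A)` grows exponentially in `m` (`tendsto_pow_const_div_const_pow_of_one_lt`). -/
theorem growth_end {ρ : ℕ → ℕ} {B φ a₀ A : ℕ} {σ c : ℚ} (h1 : ∀ a, 1 ≤ ρ a)
    (poly : ∀ a, ρ a ≤ B * (a + 1) ^ φ) (hc : 0 ≤ c)
    (h : ∀ a, a₀ ≤ a → 0 ≤ σ * ρ (a + A) + ((ρ (a + A) : ℚ) - ρ a) * c) : 0 ≤ σ := by
  by_contra hσ
  rw [not_le] at hσ
  have hp : ∀ a, (1 : ℚ) ≤ ρ a := fun a => by exact_mod_cast h1 a
  have h0 := h a₀ le_rfl
  have hc0 : 0 < c := by
    rcases hc.eq_or_lt with rfl | h'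
    · nlinarith [hp (a₀ + A)]
    · exact h'
  have hs : 0 < σ + c := by
    by_contra hn
    rw [not_lt] at hn
    nlinarith [hp (a₀ + A), hp a₀, mul_pos hc0 (lt_of_lt_of_le one_pos (hp a₀))]
  have hθ : 1 < c / (σ + c) := by rw [lt_div_iff₀ hs]; linarith
  have step : ∀ m : ℕ, (c / (σ + c)) ^ m ≤ ρ (a₀ + m * A) := by
    intro m
    induction m with
    | zero => simpa using hp a₀
    | succ m ih =>
      have h2 := h (a₀ + m * A) (Nat.le_add_right _ _)
      rw [show a₀ + (m + 1) * A = a₀ + m * A + A by ring, pow_succ]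
      calc _ ≤ (ρ (a₀ + m * A) : ℚ) * (c / (σ + c)) := by gcongr
        _ ≤ _ := by rw [← mul_div_assoc, div_le_iff₀ hs]; linarith
  have hr : (1 : ℝ) < ((c / (σ + c) : ℚ) : ℝ) := by exact_mod_cast hθ
  have ht := (tendsto_pow_const_div_const_pow_of_one_lt φ hr).const_mul
    ((B * (a₀ + A + 1) ^ φ : ℕ) : ℝ)
  rw [mul_zero] at ht
  obtain ⟨m, hm, hm1⟩ :=
    ((ht.eventually (gt_mem_nhds one_pos)).and (Filter.eventually_ge_atTop 1)).exists
  rw [← mul_div_assoc, div_lt_one (by positivity)] at hm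
  have h3 : ρ (a₀ + m * A) ≤ B * (a₀ + A + 1) ^ φ * m ^ φ := by
    rw [mul_assoc, ← mul_pow]
    exact (poly _).trans (Nat.mul_le_mul_left _ (Nat.pow_le_pow_left (by nlinarith) _))
  have h4 : ((c / (σ + c) : ℚ) : ℝ) ^ m ≤ (ρ (a₀ + m * A) : ℝ) := by exact_mod_cast step m
  have h5 : (ρ (a₀ + m * A) : ℝ) ≤ ((B * (a₀ + A + 1) ^ φ : ℕ) : ℝ) * (m : ℝ) ^ φ := by
    exact_mod_cast h3
  linarith

end Pool.Agent.Lib.MP_bc213e_ag.SB
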