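import Mathlib

/-! Symmetric powers and their determinants. -/

namespace Pool.Agent.Lib.MP_bc213e_ag.SB

open Module Submodule MvPolynomial

noncomputable section

variable {k : Type} [Field k] {ι : Type} [Fintype ι] [DecidableEq ι]

theorem chi_pow [CharZero k] {ρ : ℕ} (χ : Matrix (Fin (ρ + 1)) (Fin (ρ + 1)) k →* k)
    (g : Matrix (Fin (ρ + 1)) (Fin (ρ + 1)) k) (hg : g.det ≠ 0) :
    χ g ^ (ρ + 1) = χ (Matrix.diagonal fun _ => g.det) := by
  have h0 : ∀ P : Matrix _ _ k, P.det ≠ 0 → χ P ≠ 0 := fun P h =>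
    (((Matrix.isUnit_iff_isUnit_det P).2 h.isUnit).map χ).ne_zero
  have h1 : ∀ P A B : Matrix _ _ k, P.det ≠ 0 → A * P = P * B → χ A = χ B := fun P A B h e =>
    mul_right_cancel₀ (h0 P h) (by rw [← map_mul, e, map_mul, mul_comm])
  refine Matrix.diagonal_transvection_induction_of_det_ne_zero
    (fun g => χ g ^ (ρ + 1) = χ (Matrix.diagonal fun _ => g.det)) g hg (fun D _ => ?_)
    (fun ⟨i, j, hij, c⟩ => ?_) fun A B _ _ hA hB => ?_
  · have h2 : ∀ s : Fin (ρ + 1), χ (Matrix.diagonal fun i => D (i + s)) = χ (Matrix.diagonal D) :=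
      fun s => h1 ((1 : Matrix _ _ k).submatrix (Equiv.addRight s) id) _ _
        (by rw [Matrix.det_permute]; simp) (by
          ext a b
          simp only [Matrix.diagonal_mul, Matrix.mul_diagonal, Matrix.submatrix_apply,
            Matrix.one_apply, Equiv.coe_addRight, id]
          split_ifs with h <;> simp [h])
    have h3 := map_prod (χ.comp (Matrix.diagonalRingHom _ k).toMonoidHom) (fun s i => D (i + s))
      Finset.univ
    have h4 : (∏ s, fun i => D (i + s)) = fun _ => (Matrix.diagonal D).det := funext fun i => by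
      rw [Finset.prod_apply, Matrix.det_diagonal]
      exact Equiv.prod_comp (Equiv.addLeft i) D
    rw [h4] at h3
    refine Eq.trans ?_ h3.symm
    exact ((Finset.prod_congr rfl fun s _ => h2 s).trans (by simp)).symm
  · have h2 := h1 (Matrix.diagonal fun l => if l = i then 2 else 1)
      (Matrix.transvection i j c * Matrix.transvection i j c) (Matrix.transvection i j c)
      (by simp [Finset.prod_ite_eq']) (by
        rw [Matrix.transvection_mul_transvection_same _ _ hij]
        ext a b
        simp only [Matrix.diagonal_mul, Matrix.mul_diagonal, Matrix.transvection, Matrix.add_apply,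
          Matrix.one_apply, Matrix.single_apply]
        by_cases ha : a = i <;> by_cases hb : b = j <;> by_cases hab : a = b <;>
          simp_all [two_mul, eq_comm])
    have h3 := Matrix.det_transvection_of_ne i j hij c
    rw [map_mul, mul_eq_left₀ (h0 _ (h3 ▸ one_ne_zero))] at h2
    simp [h2, h3]
  · rw [map_mul, mul_pow, hA, hB, ← map_mul, Matrix.diagonal_mul_diagonal, Matrix.det_mul]

/-- The linear substitution with matrix `g`. -/
def sb (g : Matrix ι ι k) : MvPolynomial ι k →ₐ[k] MvPolynomial ι k :=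
  aeval fun l => ∑ m, g l m • X m

omit [DecidableEq ι] in
theorem sb_hom (g : Matrix ι ι k) {n : ℕ} {P : MvPolynomial ι k} (h : P.IsHomogeneous n) :
    (sb g P).IsHomogeneous n := by
  simpa [sb] using h.aeval (n := 1) _ fun l => (homogeneousSubmodule ι k 1).sum_mem fun m _ =>
    smul_mem _ (g l m) (isHomogeneous_X k m)

theorem sb_one (P : MvPolynomial ι k) : sb 1 P = P :=
  DFunLike.congr_fun (algHom_ext (g := AlgHom.id k _) fun l => by simp [sb, Matrix.one_apply]) P

/-- The substitution on the forms of degree `n`. -/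
def sbH (n : ℕ) (g : Matrix ι ι k) :
    homogeneousSubmodule ι k n →ₗ[k] homogeneousSubmodule ι k n :=
  (sb g).toLinearMap.restrict fun _ h => sb_hom g h

omit [DecidableEq ι] in
theorem det_sbH_mul (g h : Matrix ι ι k) : sb (g * h) = (sb h).comp (sb g) :=
  algHom_ext fun l => by
    simp only [sb, AlgHom.comp_apply, aeval_X, map_sum, map_smul, Matrix.mul_apply,
      Finset.sum_smul, Finset.smul_sum, mul_smul]
    exact Finset.sum_comm

theorem det_sbH_sc (x : k) {n : ℕ} {P : MvPolynomial ι k} (h : P.IsHomogeneous n) :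
    sb (Matrix.diagonal fun _ => x) P = x ^ n • P := by
  induction h using IsWeightedHomogeneous.induction_on with
  | zero => simp
  | add p q _ _ hp hq => rw [map_add, hp, hq, smul_add]
  | monomial d r hd =>
    simp only [sb, aeval_monomial, Matrix.diagonal_apply, ite_smul, zero_smul, Finset.sum_ite_eq,
      Finset.mem_univ, if_true, smul_pow, algebraMap_eq]
    rw [monomial_eq, ← hd, Finsupp.prod, Finsupp.prod, Finset.prod_smul,
      Finset.prod_pow_eq_pow_sum, mul_smul_comm]
    simp [Finsupp.weight_apply, Finsupp.sum]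

/-- The determinant of a symmetric power. -/
theorem det_sbH [CharZero k] {ρ : ℕ} (n : ℕ) (g : Matrix (Fin (ρ + 1)) (Fin (ρ + 1)) k)
    (hg : g.det ≠ 0) : LinearMap.det (sbH n g) ^ (ρ + 1) =
      g.det ^ (n * finrank k (homogeneousSubmodule (Fin (ρ + 1)) k n)) := by
  let χ : Matrix (Fin (ρ + 1)) (Fin (ρ + 1)) k →* k :=
    { toFun := fun g => LinearMap.det (sbH n g)
      map_one' := (congrArg _ (LinearMap.ext fun P => Subtype.ext (sb_one P.1))).trans
        LinearMap.det_id
      map_mul' := fun a b => by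
        rw [mul_comm, ← LinearMap.det_comp]
        exact congrArg _ (LinearMap.ext fun P => Subtype.ext
          (DFunLike.congr_fun (det_sbH_mul a b) P.1)) }
  have e : sbH n (Matrix.diagonal fun _ : Fin (ρ + 1) => g.det) = g.det ^ n • LinearMap.id :=
    LinearMap.ext fun P => Subtype.ext (det_sbH_sc _ P.2)
  refine (chi_pow χ g hg).trans ((congrArg LinearMap.det e).trans ?_)
  rw [LinearMap.det_smul, LinearMap.det_id, mul_one, pow_mul]

omit [DecidableEq ι] in
/-- The basis of monomials. -/
theorem exists_mon_basis [Nonempty ι] (n : ℕ) :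
    ∃ (N : ℕ) (b : Basis (Fin N) k (homogeneousSubmodule ι k n)), 0 < N ∧
      ∀ l, ∃ α, ∀ P, b.repr P l = coeff α P.1 := by
  have := (Finsupp.finite_of_degree_eq (σ := ι) n).to_subtype
  obtain ⟨N, ⟨e⟩⟩ := Finite.exists_equiv_fin {d : ι →₀ ℕ | d.degree = n}
  rw [homogeneousSubmodule_eq_finsupp_supported]
  exact ⟨N, (basisRestrictSupport k _).reindex e,
    (e ⟨Finsupp.single (Classical.arbitrary ι) n, by simp⟩).pos,
    fun l => ⟨e.symm l, fun P => Basis.repr_reindex_apply _ _ _ _⟩⟩

variable {j : ℕ} {W₁ W₂ : Type} [AddCommGroup W₁] [Module k W₁] [AddCommGroup W₂] [Module k W₂]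

/-- The form `φ (m (x, …, x))` in the coordinates of `x` for the family `r`. -/
def pol (m : MultilinearMap k (fun _ : Fin j => W₁) W₂) (r : ι → W₁) :
    (W₂ →ₗ[k] k) →ₗ[k] MvPolynomial ι k where
  toFun φ := ∑ τ : Fin j → ι, φ (m fun s => r (τ s)) • ∏ s, X (τ s)
  map_add' φ ψ := by simp only [LinearMap.add_apply, add_smul, Finset.sum_add_distrib]
  map_smul' c φ := by simp only [LinearMap.smul_apply, smul_assoc, Finset.smul_sum, RingHom.id_apply]

theorem pol_apply (m : MultilinearMap k (fun _ : Fin j => W₁) W₂) (r : ι → W₁) (φ : W₂ →ₗ[k] k) :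
    pol m r φ = ∑ τ : Fin j → ι, φ (m fun s => r (τ s)) • ∏ s, X (τ s) := rfl

theorem pol_hom (m : MultilinearMap k (fun _ : Fin j => W₁) W₂) (r : ι → W₁) (φ : W₂ →ₗ[k] k) :
    (pol m r φ).IsHomogeneous j := by
  refine IsHomogeneous.sum _ _ _ fun τ _ => (homogeneousSubmodule ι k j).smul_mem _ ?_
  simpa using IsHomogeneous.prod Finset.univ (fun s => (X (τ s) : MvPolynomial ι k)) (fun _ => 1)
    fun s _ => isHomogeneous_X k (τ s)

/-- `MultilinearMap.map_sum`, `Finset.prod_univ_sum`, exchange the sums. -/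
theorem sb_pol (m : MultilinearMap k (fun _ : Fin j => W₁) W₂) (r e : ι → W₁) (g : Matrix ι ι k)
    (h : ∀ p, e p = ∑ l, g l p • r l) (φ : W₂ →ₗ[k] k) : sb g (pol m r φ) = pol m e φ := by
  simp only [pol_apply, sb, map_sum, map_smul, map_prod, aeval_X, h, MultilinearMap.map_sum,
    MultilinearMap.map_smul_univ, Finset.prod_univ_sum, Fintype.piFinset_univ, Finset.smul_sum,
    Finset.sum_smul, Finset.prod_smul, smul_smul, smul_eq_mul]
  rw [Finset.sum_comm]
  simp only [mul_comm]

end

end Pool.Agent.Lib.MP_bc213e_ag.SB
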