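import Pool.Agent.Lib.MP_bc213e_ag.SB.L.Deg
import Pool.Agent.Lib.MP_bc213e_ag.SB.L.Sym
import Pool.Agent.Lib.MP_bc213e_ag.SB.L.Null

/-! The slope of a lattice is bounded by forms without a common zero. -/

namespace Pool.Agent.Lib.MP_bc213e_ag.SB

open Pool.Agent.Lib.MP_bc213e_ag.Hyp WithZero Module Filter MvPolynomial

variable {k I ι : Type} [Field k]

/-- All coefficients have value at most `z`. -/
def Gs (v : Val k) (z : Zm) (P : MvPolynomial ι k) : Prop := ∀ α, v (coeff α P) ≤ z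

theorem Gs.mul {v : Val k} {z z' : Zm} {P Q : MvPolynomial ι k} (h : Gs v z P) (h' : Gs v z' Q) :
    Gs v (z * z') (P * Q) := fun α => by
  classical
  rw [coeff_mul]
  exact v.map_sum_le fun p _ => (map_mul v _ _).trans_le (mul_le_mul' (h _) (h' _))

theorem gs_mon (v : Val k) (β : ι →₀ ℕ) : Gs v 1 (monomial β 1) := fun α => by
  classical
  rw [coeff_monomial]
  split_ifs <;> simp

theorem gs_prod {κ : Type} (s : Finset κ) {v : Val k} {z : κ → Zm} {P : κ → MvPolynomial ι k}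
    (h : ∀ a, Gs v (z a) (P a)) : Gs v (∏ a ∈ s, z a) (∏ a ∈ s, P a) :=
  s.prod_hom_rel (r := Gs v) (gs_mon v 0) fun a _ _ h' => (h a).mul h'

theorem exp_sum' {κ : Type} (s : Finset κ) (n : κ → ℤ) :
    (exp (∑ a ∈ s, n a) : Zm) = ∏ a ∈ s, exp (n a) := by
  induction s using Finset.cons_induction with
  | empty => rfl
  | cons a s h ih => rw [Finset.sum_cons, Finset.prod_cons, exp_add, ih]

variable [Algebra ℂ k] {C : VC k I} {W₁ W₂ : Type} [AddCommGroup W₁] [Module k W₁]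
  [AddCommGroup W₂] [Module k W₂]

theorem slope (A₁ : AL C W₁) (A₂ : AL C W₂) [FiniteDimensional k W₁] {j : ℕ} (hj : 0 < j)
    (m : MultilinearMap k (fun _ : Fin j => W₁) W₂)
    (hm : ∀ i x, (∀ s, A₁.N i (x s) ≤ 1) → A₂.N i (m x) ≤ 1) {ρ R : ℕ}
    (r : Basis (Fin (ρ + 1)) k W₁) {φ : Fin R → W₂ →ₗ[k] k} {φ' : I → Fin R → W₂ →ₗ[k] k}
    {M : Fin R → I →₀ ℤ} (h2 : ∀ i p, φ' i p - φ p ∈ Submodule.span k (φ '' {l | l.1 < p.1}))
    (h3 : ∀ i p x, C.v i (φ' i p x) ≤ exp (M p i) * A₂.N i x) {μ : ℚ} (hμ : 0 ≤ μ)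
    (h4 : ∀ p, dg C.d (M p) ≤ μ)
    (nd : ∀ c : Fin (ρ + 1) → AlgebraicClosure k, (∀ p, aeval c (pol m r (φ p)) = 0) → c = 0) :
    j * A₁.deg ≤ (ρ + 1) * μ := by
  classical
  have := charZero_of_injective_algebraMap (algebraMap ℂ k).injective
  obtain ⟨e, E, h⟩ := A₁.exists_fr r
  rw [h.top.deg_eq]
  obtain ⟨B, hB⟩ := span_null hj (fun p => pol m r (φ p)) (fun p => pol_hom m r _) nd
  have g1 : ∀ β : Fin (ρ + 1) →₀ ℕ, ∃ G : I →₀ ℤ, ∀ i,
      Gs (C.v i) (exp (G i)) (sb (r.toMatrix (e i)) (monomial β 1)) := fun β => by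
    obtain ⟨G, hG⟩ := exists_bd (fun i => (sb (r.toMatrix (e i)) (monomial β 1)).support.sup
      fun α => C.v i (coeff α (sb (r.toMatrix (e i)) (monomial β 1)))) (h.ae.mono fun i hi =>
        Finset.sup_le fun α _ => by rw [hi, Basis.toMatrix_self, sb_one]; exact gs_mon _ β α)
    refine ⟨G, fun i α => ?_⟩
    by_cases hα : α ∈ (sb (r.toMatrix (e i)) (monomial β 1)).support
    · exact (Finset.le_sup (f := fun α => C.v i (coeff α _)) hα).trans (hG i)
    · simp [notMem_support_iff.1 hα]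
  choose G hG using g1
  obtain ⟨c₀, hc⟩ := ((Finsupp.finite_of_degree_lt (σ := Fin (ρ + 1)) B).image
    fun β => dg C.d (G β)).bddAbove
  have g2 : ∀ i p, Gs (C.v i) (exp (M p i)) (sb (r.toMatrix (e i)) (pol m r (φ' i p))) :=
    fun i p α => by
      rw [sb_pol m r (e i) _ fun p => (r.sum_toMatrix_smul_self (e i) p).symm, pol_apply, coeff_sum]
      refine (C.v i).map_sum_le fun τ _ => ?_
      rw [coeff_smul, smul_eq_mul, map_mul]
      exact (mul_le_mul' ((h3 i p _).trans (mul_le_of_le_one_right' (hm i _ fun s => h.le1 i _)))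
        ((gs_prod _ (fun s => gs_mon _ _) α).trans_eq Finset.prod_const_one)).trans_eq (mul_one _)
  have key : ∀ n : ℕ, n * (j * dg C.d E - (ρ + 1) * μ) ≤ (ρ + 1) * (j * c₀) := fun n => by
    obtain ⟨N, b, hN, hb⟩ := exists_mon_basis (k := k) (ι := Fin (ρ + 1)) n
    let T := {t : Σ p : ℕ, (Fin p → Fin R) × (Fin (ρ + 1) →₀ ℕ) //
      t.2.2.degree < B ∧ j * t.1 + t.2.2.degree = n}
    have g3 : ∀ (ψ : Fin R → W₂ →ₗ[k] k) (t : T), (∏ s, pol m r (ψ (t.1.2.1 s))) *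
        monomial t.1.2.2 1 ∈ homogeneousSubmodule (Fin (ρ + 1)) k n := fun ψ t => by
      have := (IsHomogeneous.prod Finset.univ _ (fun _ => j) fun s _ =>
        pol_hom m r (ψ (t.1.2.1 s))).mul (isHomogeneous_monomial (1 : k) (d := t.1.2.2) rfl)
      rwa [Finset.sum_const, Finset.card_univ, Fintype.card_fin, smul_eq_mul, mul_comm t.1.1,
        t.2.2] at this
    obtain ⟨σ, s1, s2⟩ := greedy b (fun t : T => ⟨_, g3 φ t⟩)
      ((Submodule.span_range_subtype_eq_top_iff _ (g3 φ)).2 (le_antisymm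
        (Submodule.span_le.2 (Set.range_subset_iff.2 (g3 φ))) ((hB n).trans (Submodule.span_mono
          fun P ⟨p, τ, β, h5, h6, h7⟩ => ⟨⟨⟨p, τ, β⟩, h5, h6⟩, h7.symm⟩))))
      fun t => ∑ s, (t.1.2.1 s).1
    obtain ⟨Δ, d1, d2⟩ := C.pf _ s1
    have g4 : ∀ i, ((n * N) • E + (ρ + 1) • Δ : I →₀ ℤ) i ≤
        ((ρ + 1) • ∑ l, (∑ s, M ((σ l).1.2.1 s) + G (σ l).1.2.2) : I →₀ ℤ) i := fun i => by
      have g5 := s2 (fun l => ⟨_, g3 (φ' i) (σ l)⟩) fun l => by
        rw [← Submodule.apply_mem_span_image_iff_mem_span (f := Submodule.subtype _)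
          Subtype.val_injective]
        refine Submodule.span_mono ?_ (ml_span ((LinearMap.mulRight k
          (monomial (σ l).1.2.2 1)).compMultilinearMap (MultilinearMap.mkPiAlgebra k _ _))
          (fun p => pol m r (φ p)) (fun p => p.1) (σ l).1.2.1 (fun s => pol m r (φ' i _))
          fun s => by
            have := Submodule.apply_mem_span_image_of_mem_span (pol m r) (h2 i ((σ l).1.2.1 s))
            rwa [map_sub, Set.image_image] at this)
        rintro _ ⟨τ, hτ, rfl⟩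
        exact ⟨_, ⟨⟨⟨_, τ, _⟩, (σ l).2⟩, hτ, rfl⟩, rfl⟩
      have g6 := b.det_comp (sbH n (r.toMatrix (e i))) fun l => ⟨_, g3 (φ' i) (σ l)⟩
      have g7 := val_det_le (C.v i) (b.toMatrix (sbH n (r.toMatrix (e i)) ∘
        fun l => ⟨_, g3 (φ' i) (σ l)⟩))
        (fun l => (∏ s, exp (M ((σ l).1.2.1 s) i)) * exp (G (σ l).1.2.2 i)) fun l l' => by
          obtain ⟨α, hα⟩ := hb l
          rw [Basis.toMatrix_apply, hα]
          refine Eq.trans_le (congrArg (fun P => C.v i (coeff α P)) ?_)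
            ((gs_prod _ fun s => g2 i ((σ l').1.2.1 s)).mul (hG _ i) α)
          rw [← map_prod, ← map_mul]
          rfl
      rw [← Basis.det_apply, g6, g5, map_mul, d1] at g7
      have g8 := pow_le_pow_left' g7 (ρ + 1)
      rw [mul_pow, ← map_pow, det_sbH n _ (r.isUnit_det _).ne_zero, map_pow, ← Basis.det_apply,
        h.det, finrank_eq_card_basis b, Fintype.card_fin] at g8
      simp only [← exp_sum', ← exp_add, ← exp_nsmul, exp_le_exp] at g8
      simpa only [Finsupp.add_apply, Finsupp.smul_apply, Finsupp.finsetSum_apply] using g8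
    have g9 := dg_mono C.d_nonneg g4
    rw [dg_add, dg_nsmul, dg_nsmul, dg_nsmul, d2, dg_sum] at g9
    have g10 : j * ∑ l, dg C.d (∑ s, M ((σ l).1.2.1 s) + G (σ l).1.2.2) ≤ N * (n * μ + j * c₀) := by
      rw [Finset.mul_sum]
      refine (Finset.sum_le_card_nsmul _ _ _ fun l _ => ?_).trans_eq (by
        rw [Finset.card_univ, Fintype.card_fin, nsmul_eq_mul])
      have a1 := Finset.sum_le_card_nsmul Finset.univ _ _ fun s _ => h4 ((σ l).1.2.1 s)
      have a2 : dg C.d (G (σ l).1.2.2) ≤ c₀ := hc ⟨_, (σ l).2.1, rfl⟩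
      have a3 : (j * (σ l).1.1 : ℚ) ≤ n := by exact_mod_cast Nat.le.intro (σ l).2.2
      rw [Finset.card_univ, Fintype.card_fin, nsmul_eq_mul] at a1
      rw [dg_add, dg_sum]
      have a4 := mul_le_mul_of_nonneg_left (add_le_add a1 a2) (Nat.cast_nonneg (α := ℚ) j)
      have a5 := mul_le_mul_of_nonneg_right a3 hμ
      linarith
    have a6 := mul_le_mul_of_nonneg_left g9 (Nat.cast_nonneg (α := ℚ) j)
    have a7 := mul_le_mul_of_nonneg_left g10 (Nat.cast_nonneg (α := ℚ) (ρ + 1))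
    refine le_of_mul_le_mul_left ?_ (Nat.cast_pos (α := ℚ) |>.2 hN)
    push_cast at a6 a7
    linarith
  by_contra hn
  obtain ⟨n, h5⟩ := exists_nat_gt ((ρ + 1) * (j * c₀) / (j * dg C.d E - (ρ + 1) * μ))
  exact (key n).not_gt ((div_lt_iff₀ (sub_pos.2 (not_le.1 hn))).1 h5)

end Pool.Agent.Lib.MP_bc213e_ag.SB
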