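import Pool.Agent.Lib.MP_bc213e_ag.SB.L.Lat
import Pool.Agent.Lib.MP_bc213e_ag.SB.L.Sieg
import Pool.Agent.Lib.MP_bc213e_ag.SB.L.Slope

/-! The slope inequality. -/

namespace Pool.Agent.Lib.MP_bc213e_ag.SB.Lat

open Pool.Agent.Lib.MP_bc213e_ag.Hyp WithZero Module

theorem rate_le {x y c : ℚ} (h : ∀ t : ℕ, t * x ≤ t * y + c) : x ≤ y := by
  by_contra hn
  obtain ⟨t, ht⟩ := exists_nat_gt (c / (x - y))
  have := (div_lt_iff₀ (sub_pos.2 (not_le.1 hn))).1 ht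
  linarith [h t]

variable {k I : Type} [Field k] [Algebra ℂ k] {C : VC k I} {K : Type} [Field K] [Algebra ℂ K]
  [Algebra k K] [IsScalarTower ℂ k K] (A : Lat C K)

theorem up_flag (a : ℕ) [FiniteDimensional k (A.V a)] :
    ∃ (r : ℕ) (M : Fin r → I →₀ ℤ), ∀ t : ℕ, finrank ℂ (A.Γ a (t • C.D)) ≤
      ∑ l, finrank ℂ (Gm C.v C.triv (M l + t • C.D)) := by
  obtain ⟨B, h⟩ := A.exists_al a
  choose M hM using fun l => B.fin (finBasis k (A.V a) l)
  obtain ⟨M', -, -, h3⟩ := AL.up _ _ B _ M hM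
  exact ⟨_, M', fun t => h.rank_Γ t ▸ h3 _⟩

theorem rank_pos (a : ℕ) [FiniteDimensional k (A.V a)] : 0 < finrank k (A.V a) :=
  finrank_pos_iff_exists_ne_zero.2 ⟨⟨1, A.one_mem_V a⟩, fun h => one_ne_zero (congrArg Subtype.val h)⟩

theorem deg_le (fd : ∀ a, FiniteDimensional k (A.V a)) (hσ : C.σ ≤ 0) {a : ℕ} {q : ℚ}
    (mu : ∀ j : ℕ, 0 < j → ∀ U : Submodule k K, U ≤ A.V (j * a) → ∀ e c : ℚ,
      (∀ t : ℕ, t * e - c ≤ finrank ℂ ↥(A.Γ (j * a) (t • C.D) ⊓ U.restrictScalars ℂ)) →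
        finrank k (A.V a) * e ≤ finrank k U * j * q)
    {B : AL C (A.V a)} (hB : A.IsAL a B) : B.deg ≤ q := by
  classical
  have := charZero_of_injective_algebraMap (algebraMap ℂ k).injective
  have h0 : ∀ a, (0 : ℚ) < finrank k (A.V a) := fun a => Nat.cast_pos.2 (A.rank_pos a)
  have hq : 0 ≤ q := by
    have := mu 1 one_pos _ le_rfl 0 0 (by simp)
    rw [mul_zero, Nat.cast_one, mul_one] at this
    exact nonneg_of_mul_nonneg_right this (h0 _)
  by_cases hd : ∃ i, 0 < C.d i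
  swap
  · push Not at hd
    refine le_trans (Finset.sum_nonpos fun i _ => ?_) hq
    simp [le_antisymm (hd i) (C.d_nonneg i)]
  obtain ⟨i₀, hd⟩ := hd
  obtain ⟨ρ, hρ⟩ := Nat.exists_eq_succ_of_ne_zero (A.rank_pos a).ne'
  refine rate_le (c := (ρ + 1) * (C.d i₀ - 2 * C.σ)) fun j => ?_
  rcases j.eq_zero_or_pos with rfl | hj
  · simp only [Nat.cast_zero, zero_mul, zero_add]
    exact mul_nonneg (by positivity) (by linarith)
  obtain ⟨B', hB'⟩ := A.exists_al (j * a)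
  obtain ⟨m, hm⟩ := A.exists_mul a j
  have h1 : (finrank k (A.V a) : ℚ) = ρ + 1 := by rw [hρ]; push_cast; rfl
  obtain ⟨φ, φ', M, p1, p2, p3, p4⟩ := AL.flags hd (μ := j * q / (ρ + 1) - C.σ) _ _ B' rfl
    fun U _ _ _ f hf => by
      let _ := Module.compHom U (algebraMap ℂ k)
      have : IsScalarTower ℂ k U := IsScalarTower.of_algebraMap_smul fun _ _ => rfl
      obtain ⟨c, hc⟩ := (B'.comap f hf).low 0
      have h2 := mu j hj (LinearMap.range ((A.V (j * a)).subtype ∘ₗ f))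
        (by rintro _ ⟨x, rfl⟩; exact (f x).2) _ c fun t => by
          have := hc t
          rwa [zero_add, hB'.rank_comap] at this
      rw [LinearMap.finrank_range_of_inj (f := (A.V (j * a)).subtype ∘ₗ f)
        (Subtype.val_injective.comp hf), h1, dg_zero, zero_add] at h2
      rw [mul_sub, ← mul_div_assoc, le_sub_iff_add_le, le_div_iff₀ (h1 ▸ h0 a)]
      linarith
  have h3 := slope B B' hj m (fun i x hx => (hB' i _).2 (hm x ▸ A.prod_mem_Λ fun s =>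
    (hB i _).1 (hx s))) (finBasisOfFinrankEq k _ hρ) p2 p3 (by
      have : 0 ≤ j * q / (ρ + 1) := by positivity
      linarith) p4 fun c hc => pow_nondeg hj
    ((finBasisOfFinrankEq k _ hρ).linearIndependent.map' (A.V a).subtype (A.V a).ker_subtype) c
    fun ψ => by
      have h4 := (Submodule.span_le (p := LinearMap.ker ((MvPolynomial.aeval c).toLinearMap ∘ₗ
        pol m (finBasisOfFinrankEq k _ hρ)))).2 (Set.range_subset_iff.2 hc)
        (FiniteDimensional.mem_span_of_iInf_ker_le_ker (L := φ) (K := ψ ∘ₗ (A.V (j * a)).subtype)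
          fun x hx => by rw [p1 x (by simpa using hx)]; exact zero_mem _)
      simpa [pol_apply, hm] using h4
  have h5 : (ρ + 1 : ℚ) * (j * q / (ρ + 1)) = j * q := mul_div_cancel₀ _ (h1 ▸ h0 a).ne'
  linarith

theorem sigma_nonneg (fd : ∀ a, FiniteDimensional k (A.V a)) {B φ : ℕ}
    (poly : ∀ a, finrank k (A.V a) ≤ B * (a + 1) ^ φ) (q : ℕ → ℚ) (a₀ : ℕ)
    (grow : ∀ a, a₀ ≤ a → ∃ c : ℚ, ∀ t : ℕ, t * q a - c ≤ finrank ℂ (A.Γ a (t • C.D)))
    (mu : ∀ a, a₀ ≤ a → ∀ j : ℕ, 0 < j → ∀ U : Submodule k K, U ≤ A.V (j * a) → ∀ e c : ℚ,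
      (∀ t : ℕ, t * e - c ≤ finrank ℂ ↥(A.Γ (j * a) (t • C.D) ⊓ U.restrictScalars ℂ)) →
        finrank k (A.V a) * e ≤ finrank k U * j * q a)
    (pos : C.c₁ ≤ 0 ∨ ∃ (a : ℕ) (w : K) (G : I →₀ ℤ), w ≠ 0 ∧ 0 ≤ G ∧ 0 < dg C.d G ∧
      w ∈ A.Γ a (-G)) :
    0 ≤ C.σ := by
  by_contra hσ
  obtain ⟨a', w, G, h1, h2, h3, h4⟩ : ∃ (a : ℕ) (w : K) (G : I →₀ ℤ), w ≠ 0 ∧ 0 ≤ G ∧
      C.c₁ ≤ dg C.d G ∧ w ∈ A.Γ a (-G) := by
    rcases pos with h | ⟨a, w, G, h1, h2, h3, h4⟩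
    · exact ⟨0, 1, 0, one_ne_zero, le_rfl, dg_zero C.d ▸ h, neg_zero (G := I →₀ ℤ) ▸ A.one_mem_Γ 0⟩
    · obtain ⟨s, hs⟩ := exists_nat_ge (C.c₁ / dg C.d G)
      exact ⟨s * a, w ^ s, s • G, pow_ne_zero s h1, nsmul_nonneg h2 s,
        dg_nsmul C.d s G ▸ (div_le_iff₀ h3).1 hs, smul_neg s G ▸ A.Γ_pow h4 s⟩
  refine hσ (growth_end (ρ := fun a => finrank k (A.V a)) (a₀ := a₀) (A := a') (c := max C.c₁ 0)
    (fun a => A.rank_pos a) poly (le_max_right _ _) fun a ha => ?_)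
  have ha' : a₀ ≤ a + a' := ha.trans (Nat.le_add_right _ _)
  obtain ⟨B', hB⟩ := A.exists_al (a + a')
  obtain ⟨b, J, M, b1, b2, b3, b4⟩ := hB.exists_basis h1 h2 h4
  obtain ⟨M', p1, p2, p3⟩ := AL.up _ _ B' b M b1
  obtain ⟨c, hc⟩ := grow _ ha'
  choose c' hc' using fun l => C.up (M' l)
  have h5 : q (a + a') ≤ ∑ l, (max (dg C.d (M' l)) C.c₁ + C.σ) :=
    rate_le (c := ∑ l, c' l + c) fun t => by
      have e1 := (Nat.cast_le (α := ℚ)).2 (hB.rank_Γ t ▸ p3 (t • C.D))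
      have e2 := Finset.sum_le_sum fun l (_ : l ∈ Finset.univ) => hc' l t
      rw [Nat.cast_sum] at e1
      rw [Finset.sum_add_distrib, ← Finset.mul_sum] at e2
      linarith [hc t]
  have h6 := Finset.sum_le_sum (s := Finset.univ) (f := fun l => max (dg C.d (M' l)) C.c₁ + C.σ +
    if l ∈ J then max C.c₁ 0 else 0) (g := fun l => dg C.d (M' l) + (C.σ + max C.c₁ 0))
    fun l _ => by
      have e1 := p2 l
      have e2 := b2 l
      have e3 := le_max_left C.c₁ 0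
      have e4 := le_max_right C.c₁ 0
      split_ifs with hl
      · rw [max_eq_left (by linarith [b3 l hl]), add_assoc]
      · have := max_le (show dg C.d (M' l) ≤ dg C.d (M' l) + max C.c₁ 0 by linarith)
          (show C.c₁ ≤ dg C.d (M' l) + max C.c₁ 0 by linarith)
        linarith
  rw [Finset.sum_add_distrib, Finset.sum_add_distrib (f := fun l => dg C.d (M' l)), p1,
    Finset.sum_ite_mem, Finset.univ_inter, Finset.sum_const, Finset.sum_const, Finset.card_univ,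
    Fintype.card_fin, nsmul_eq_mul, nsmul_eq_mul] at h6
  have h7 := A.deg_le fd (not_le.1 hσ).le (mu _ ha') hB
  have h8 := mul_le_mul_of_nonneg_right ((Nat.cast_le (α := ℚ)).2 b4) (le_max_right C.c₁ 0)
  linarith

end Pool.Agent.Lib.MP_bc213e_ag.SB.Lat
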