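import Mathlib

/-! Linear algebra for the slope inequality. -/

namespace Pool.Agent.Lib.MP_bc213e_ag.SB

open Module Submodule

variable {k : Type} [Field k] {ι T W Y : Type} [Fintype ι] [DecidableEq ι] [AddCommGroup W]
  [Module k W] [AddCommGroup Y] [Module k Y]

/-- `Matrix.det_apply`, `Valuation.map_sum_le`, `map_prod`, the sign has value one. -/
theorem val_det_le {Γ : Type} [LinearOrderedCommGroupWithZero Γ] (v : Valuation k Γ)
    (A : Matrix ι ι k) (z : ι → Γ) (h : ∀ l m, v (A l m) ≤ z m) : v A.det ≤ ∏ m, z m := by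
  rw [Matrix.det_apply]
  refine v.map_sum_le fun σ _ => ?_
  have h1 : v (∏ i, A (σ i) i) ≤ ∏ m, z m := by
    rw [map_prod]
    exact Finset.prod_le_prod' fun i _ => h _ _
  rcases Int.units_eq_one_or (Equiv.Perm.sign σ) with hs | hs
  · rwa [hs, one_smul]
  · rwa [hs, Units.neg_smul, one_smul, Valuation.map_neg]

/-- Cramer: `b.det = b.det e • e.det` (`AlternatingMap.eq_smul_basis_det`). -/
theorem det_upd (b e : Basis ι k W) (l : ι) (x : W) :
    b.det (Function.update e l x) = e.repr x l * b.det e := by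
  conv_lhs => rw [← e.sum_repr x]
  rw [AlternatingMap.map_update_sum, Finset.sum_eq_single l]
  · rw [AlternatingMap.map_update_smul, Function.update_eq_self, smul_eq_mul]
  · intro j _ hj
    rw [AlternatingMap.map_update_smul, b.det.map_update_self _ hj.symm, smul_zero]
  · simp

/-- Both sides are alternating in `e` (`AlternatingMap.curryLeft`, `compLinearMap`,
`AlternatingMap.eq_smul_basis_det`); or expand the first row of the matrix. -/
theorem exists_basis_cons {n : ℕ} (b : Basis (Fin n) k Y) (f : Y →ₗ[k] W)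
    (hf : Function.Injective f) (φ : W →ₗ[k] k) (hφ : LinearMap.range f = LinearMap.ker φ) {y : W}
    (hy : φ y = 1) : ∃ b' : Basis (Fin (n + 1)) k W, ∀ (z : W) (e : Fin n → Y),
      b'.det (Fin.cons z fun l => f (e l)) = φ z * b.det e := by
  have h0 : ∀ w, φ (f w) = 0 := fun w => by
    rw [← LinearMap.mem_ker, ← hφ]
    exact ⟨w, rfl⟩
  let b' : Basis (Fin (n + 1)) k W :=
    Basis.mkFinCons y (b.map (LinearEquiv.ofInjective f hf))
      (fun c x hx hc => by
        have h1 := congrArg φ hc
        rw [hφ, LinearMap.mem_ker] at hx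
        simpa [hy, hx] using h1)
      (fun z => ⟨-φ z, by
        rw [hφ, LinearMap.mem_ker]
        simp [hy]⟩)
  have e0 : b' 0 = y := by simp [b']
  have e1 : ∀ i, b' (Fin.succ i) = f (b i) := fun i => by simp [b']
  have c0 : b'.coord 0 = φ := b'.ext fun i => by
    refine Fin.cases ?_ (fun j => ?_) i
    · rw [Basis.coord_apply, Basis.repr_self, e0, hy]
      simp
    · rw [Basis.coord_apply, Basis.repr_self, e1, h0]
      simp
  have c1 : ∀ i, (b'.coord (Fin.succ i)).comp f = b.coord i := fun i => b.ext fun j => by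
    rw [LinearMap.comp_apply, ← e1, Basis.coord_apply, Basis.coord_apply, Basis.repr_self,
      Basis.repr_self]
    simp [Finsupp.single_apply]
  have d0 : ∀ w, b'.repr w 0 = φ w := fun w => by rw [← c0, Basis.coord_apply]
  have d1 : ∀ w i, b'.repr (f w) (Fin.succ i) = b.repr w i := fun w i => by
    rw [← Basis.coord_apply, ← Basis.coord_apply, ← c1, LinearMap.comp_apply]
  refine ⟨b', fun z e => ?_⟩
  rw [Basis.det_apply, Basis.det_apply, Matrix.det_succ_row_zero, Fin.sum_univ_succ,
    Finset.sum_eq_zero fun j _ => by simp [Basis.toMatrix_apply, d0, h0]]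
  have h2 : (b'.toMatrix (Fin.cons z fun l => f (e l))).submatrix Fin.succ
      (Fin.succAbove 0) = b.toMatrix e := by
    ext i j
    simp [Basis.toMatrix_apply, d1]
  rw [h2]
  simp [Basis.toMatrix_apply, d0]

/-- Transposed inverse matrix. -/
theorem det_dual (b e : Basis ι k W) : b.dualBasis.det e.dualBasis * b.det e = 1 := by
  have h : b.dualBasis.toMatrix e.dualBasis = (e.toMatrix b).transpose := by
    ext i j
    simp [Basis.toMatrix_apply]
  rw [Basis.det_apply, Basis.det_apply, h, Matrix.det_transpose, ← Matrix.det_mul,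
    Basis.toMatrix_mul_toMatrix_flip, Matrix.det_one]

/-- Rank and nullity for the map from `X` to the quotient of `Y₁` by `Y₀`. -/
theorem rank_step (g : W →ₗ[k] Y) {X X₀ : Submodule k W} {Y₀ Y₁ : Submodule k Y}
    [FiniteDimensional k X₀] [FiniteDimensional k Y₁] (h₀ : Y₀ ≤ Y₁) (h₁ : ∀ x ∈ X, g x ∈ Y₁)
    (h₂ : ∀ x ∈ X, g x ∈ Y₀ → x ∈ X₀) :
    finrank k X + finrank k Y₀ ≤ finrank k X₀ + finrank k Y₁ := by
  by_cases hX : Module.Finite k X
  · let q := (Y₀.comap Y₁.subtype).mkQ.comp (g.restrict h₁)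
    have a1 := q.finrank_range_add_finrank_ker
    have a2 := (LinearMap.range q).finrank_le
    have a3 := (Y₀.comap Y₁.subtype).finrank_quotient_add_finrank
    have a4 := (Submodule.comapSubtypeEquivOfLe h₀).finrank_eq
    have a5 : (LinearMap.ker q).map X.subtype ≤ X₀ := by
      rintro _ ⟨x, hx, rfl⟩
      refine h₂ x x.2 ?_
      simpa [q] using hx
    have a6 := Submodule.finrank_mono a5
    rw [Submodule.finrank_map_subtype_eq] at a6
    omega
  · have a1 := Submodule.finrank_mono h₀
    rw [Module.finrank_of_not_finite hX]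
    omega

omit [DecidableEq ι] in
theorem ml_span_aux (g : MultilinearMap k (fun _ : ι => W) Y) (u : T → W) (A : ι → Set T)
    (x : ι → W) (hx : ∀ s, x s ∈ span k (u '' A s)) :
    g x ∈ span k ((fun τ' : ι → T => g fun s => u (τ' s)) '' {τ' | ∀ s, τ' s ∈ A s}) := by
  classical
  choose c hc hc' using fun s => (Finsupp.mem_span_image_iff_linearCombination k).1 (hx s)
  have e1 : x = fun s => ∑ t ∈ (c s).support, c s t • u t := by
    ext s
    rw [← hc' s, Finsupp.linearCombination_apply, Finsupp.sum]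
  rw [e1, g.map_sum_finset]
  refine sum_mem fun r hr => ?_
  rw [g.map_smul_univ]
  exact smul_mem _ _ (subset_span ⟨r, fun s => hc s (Fintype.mem_piFinset.1 hr s), rfl⟩)

/-- Write `x s = ∑ t ∈ insert (τ s) (A s), c s t • u t` with `c s (τ s) = 1`, expand by
`MultilinearMap.map_sum_finset`, remove the term `τ`, `Finset.sum_lt_sum`. -/
theorem ml_span (g : MultilinearMap k (fun _ : ι => W) Y) (u : T → W) (wt : T → ℕ) (τ : ι → T)
    (x : ι → W) (hx : ∀ s, x s - u (τ s) ∈ span k (u '' {t | wt t < wt (τ s)})) :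
    g x - g (fun s => u (τ s)) ∈
      span k ((fun τ' : ι → T => g fun s => u (τ' s)) '' {τ' | ∑ s, wt (τ' s) < ∑ s, wt (τ s)}) := by
  have e1 : x = (fun s => x s - u (τ s)) + fun s => u (τ s) := by
    ext s
    simp
  rw [e1, g.map_add_univ, ← Finset.add_sum_erase _ _ (Finset.mem_univ (∅ : Finset ι)),
    Finset.piecewise_empty, add_sub_cancel_left]
  refine sum_mem fun S hS => ?_
  have hS' : S.Nonempty := Finset.nonempty_iff_ne_empty.2 (Finset.ne_of_mem_erase hS)
  refine span_mono (Set.image_mono ?_) (ml_span_aux g u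
    (fun s => if s ∈ S then {t | wt t < wt (τ s)} else {τ s}) _ fun s => ?_)
  · intro r hr
    show ∑ s, wt (r s) < ∑ s, wt (τ s)
    refine Finset.sum_lt_sum (fun s _ => ?_) ?_
    · have := hr s
      by_cases hs : s ∈ S
      · rw [if_pos hs] at this
        exact le_of_lt this
      · rw [if_neg hs] at this
        exact le_of_eq (congrArg wt this)
    · obtain ⟨s, hs⟩ := hS'
      have := hr s
      rw [if_pos hs] at this
      exact ⟨s, Finset.mem_univ _, this⟩
  · by_cases hs : s ∈ S
    · rw [if_pos hs, Finset.piecewise_eq_of_mem _ _ _ hs]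
      exact hx s
    · rw [if_neg hs, Finset.piecewise_eq_of_notMem _ _ _ hs]
      exact subset_span ⟨_, rfl, rfl⟩

/-- Some `σ` has nonzero determinant (a basis inside `range u`, or `ml_span` like expansion of
`b.det b = 1`); take one of least total weight and use `ml_span`. -/
theorem greedy (b : Basis ι k W) (u : T → W) (hu : span k (Set.range u) = ⊤) (wt : T → ℕ) :
    ∃ σ : ι → T, b.det (fun l => u (σ l)) ≠ 0 ∧ ∀ x : ι → W,
      (∀ l, x l - u (σ l) ∈ span k (u '' {t | wt t < wt (σ l)})) →
        b.det x = b.det fun l => u (σ l) := by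
  have h0 : ∃ σ : ι → T, b.det (fun l => u (σ l)) ≠ 0 := by
    by_contra hc
    push Not at hc
    have h1 := ml_span_aux b.det.toMultilinearMap u (fun _ => Set.univ) b fun s => by
      rw [Set.image_univ, hu]
      trivial
    have h2 := (span_le.2 (show _ ⊆ ((⊥ : Submodule k k) : Set k) from by
      rintro _ ⟨r, -, rfl⟩
      exact hc r)) h1
    have h3 : b.det b = 0 := h2
    rw [Basis.det_self] at h3
    exact one_ne_zero h3
  obtain ⟨σ, hσ, hm⟩ := (InvImage.wf (fun σ : ι → T => ∑ s, wt (σ s)) wellFounded_lt).has_min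
    {σ | b.det (fun l => u (σ l)) ≠ 0} h0
  refine ⟨σ, hσ, fun x hx => ?_⟩
  have h1 := ml_span b.det.toMultilinearMap u wt σ x hx
  have h2 := (span_le.2 (show _ ⊆ ((⊥ : Submodule k k) : Set k) from by
    rintro _ ⟨r, hr, rfl⟩
    by_contra hc
    exact hm r hc hr)) h1
  exact sub_eq_zero.1 h2

/-- A basis inside `S₀` that contains at least `finrank U` elements of `S₁`: `exists_linearIndependent`
for `S₁`, `LinearIndepOn.extend` inside `S₀`, `finrank_span_le_card`. -/
theorem exists_basis_two [FiniteDimensional k W] {S₀ S₁ : Set W} (h : S₁ ⊆ S₀)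
    (h₀ : span k S₀ = ⊤) :
    ∃ (b : Basis (Fin (finrank k W)) k W) (J : Finset (Fin (finrank k W))), (∀ l, b l ∈ S₀) ∧
      (∀ l ∈ J, b l ∈ S₁) ∧ finrank k (span k S₁) ≤ J.card := by
  classical
  obtain ⟨s, h1, h2, h3⟩ := exists_linearIndependent k S₁
  have h4 : LinearIndepOn k id s := h3
  let B := Basis.extendLe h4 (h1.trans h) h₀.ge
  let b := B.reindex (B.indexEquiv (finBasis k W))
  have h5 : Set.range b = Set.range B := B.range_reindex _
  refine ⟨b, Finset.univ.filter fun l => b l ∈ S₁, fun l =>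
    Basis.extendLe_subset h4 (h1.trans h) h₀.ge (h5 ▸ ⟨l, rfl⟩), fun l hl =>
      (Finset.mem_filter.1 hl).2, ?_⟩
  refine le_trans ?_ ((finrank_span_finset_le_card (R := k) _).trans (Finset.card_image_le (f := b)))
  rw [← h2]
  refine finrank_mono (span_mono fun x hx => ?_)
  obtain ⟨l, rfl⟩ : x ∈ Set.range b := h5 ▸ Basis.subset_extendLe h4 (h1.trans h) h₀.ge hx
  simpa using ⟨l, h1 hx, rfl⟩

end Pool.Agent.Lib.MP_bc213e_ag.SB
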