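import Pool.Agent.Lib.MP_bc213e_ag.SB.VC
import Pool.Agent.Lib.MP_bc213e_ag.SB.L.Lin

/-! Divisors on a virtual curve and adelic norms on a vector space. -/

namespace Pool.Agent.Lib.MP_bc213e_ag.SB

open Pool.Agent.Lib.MP_bc213e_ag.Hyp WithZero Module Filter

noncomputable section

/-- The value group with zero. -/
abbrev Zm : Type := WithZero (Multiplicative ℤ)

variable {k I : Type}

/-- The degree as an additive map. -/
def dgh (d : I → ℚ) : (I →₀ ℤ) →+ ℚ :=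
  Finsupp.liftAddHom fun i => (AddMonoidHom.mulRight (d i)).comp (Int.castAddHom ℚ)

theorem dg_eq (d : I → ℚ) (M : I →₀ ℤ) : dg d M = dgh d M := rfl

theorem dg_add (d : I → ℚ) (M M' : I →₀ ℤ) : dg d (M + M') = dg d M + dg d M' :=
  map_add (dgh d) M M'

theorem dg_zero (d : I → ℚ) : dg d 0 = 0 := map_zero (dgh d)

theorem dg_neg (d : I → ℚ) (M : I →₀ ℤ) : dg d (-M) = -dg d M := map_neg (dgh d) M

theorem dg_nsmul (d : I → ℚ) (n : ℕ) (M : I →₀ ℤ) : dg d (n • M) = n * dg d M :=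
  (map_nsmul (dgh d) n M).trans (nsmul_eq_mul _ _)

theorem dg_sum {ι : Type} (d : I → ℚ) (s : Finset ι) (M : ι → I →₀ ℤ) :
    dg d (∑ l ∈ s, M l) = ∑ l ∈ s, dg d (M l) := map_sum (dgh d) M s

theorem dg_single (d : I → ℚ) (i : I) (n : ℤ) : dg d (Finsupp.single i n) = n * d i :=
  Finsupp.sum_single_index (by simp)

theorem dg_mono {d : I → ℚ} (hd : ∀ i, 0 ≤ d i) {M M' : I →₀ ℤ} (h : ∀ i, M i ≤ M' i) :
    dg d M ≤ dg d M' := by
  have : 0 ≤ dg d (M' + -M) := Finset.sum_nonneg fun i _ =>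
    mul_nonneg (Int.cast_nonneg (by simpa using h i)) (hd i)
  rw [dg_add, dg_neg] at this
  linarith

theorem exists_max {α : Type} {S : Set α} (g : α → Zm) {z : Zm} (hz : ∀ x ∈ S, g x ≤ z)
    (hS : S.Nonempty) : ∃ x ∈ S, ∀ y ∈ S, g y ≤ g x := by
  by_cases h : ∃ x ∈ S, g x ≠ 0
  · obtain ⟨x, hx, h0⟩ := h
    have hz0 : z ≠ 0 := fun e => h0 (le_zero_iff.1 (e ▸ hz x hx))
    obtain ⟨n, ⟨y, hy, e⟩, hn⟩ := Int.exists_greatest_of_bdd (P := fun n => ∃ x ∈ S, g x = exp n)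
      ⟨log z, fun n ⟨y, hy, e⟩ => (le_log_iff_exp_le hz0).2 (e ▸ hz y hy)⟩
      ⟨log (g x), x, hx, (exp_log h0).symm⟩
    refine ⟨y, hy, fun w hw => ?_⟩
    rcases eq_or_ne (g w) 0 with h1 | h1
    · exact h1 ▸ zero_le
    · rw [e, ← exp_log h1, exp_le_exp]
      exact hn _ ⟨w, hw, (exp_log h1).symm⟩
  · push Not at h
    obtain ⟨x, hx⟩ := hS
    exact ⟨x, hx, fun y hy => h y hy ▸ zero_le⟩

theorem ev_zero (M : I →₀ ℤ) : ∀ᶠ i in cofinite, M i = 0 :=
  eventually_cofinite.2 M.hasFiniteSupport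

theorem exists_div (g : I → Zm) (h0 : ∀ i, g i ≠ 0) (h1 : ∀ᶠ i in cofinite, g i = 1) :
    ∃ M : I →₀ ℤ, ∀ i, g i = exp (M i) :=
  ⟨Finsupp.ofSupportFinite (fun i => log (g i)) ((eventually_cofinite.1 h1).subset
    fun i hi e => hi (by simp [e])), fun i => (exp_log (h0 i)).symm⟩

theorem exists_bd (g : I → Zm) (h1 : ∀ᶠ i in cofinite, g i ≤ 1) :
    ∃ M : I →₀ ℤ, ∀ i, g i ≤ exp (M i) := by
  obtain ⟨M, h⟩ := exists_div (fun i => max (g i) 1)
    (fun i => (zero_lt_one.trans_le (le_max_right _ _)).ne') (h1.mono fun i => max_eq_right)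
  exact ⟨M, fun i => h i ▸ le_max_left _ _⟩

variable [Field k] [Algebra ℂ k]

theorem VC.exists_val (C : VC k I) (i : I) (n : ℤ) : ∃ c : k, C.v i c = exp n := by
  obtain ⟨π, h⟩ := C.onto i
  exact ⟨π ^ (-n), by rw [map_zpow₀, h, ← exp_zsmul]; simp⟩

theorem VC.ev_le (C : VC k I) (c : k) : ∀ᶠ i in cofinite, C.v i c ≤ 1 := by
  rcases eq_or_ne c 0 with rfl | h
  · simp
  · obtain ⟨M, hM, -⟩ := C.pf c h
    exact (ev_zero M).mono fun i hi => by rw [hM, hi, exp_zero]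

theorem VC.le_of_forall (C : VC k I) (i : I) {z z' : Zm}
    (h : ∀ c : k, C.v i c * z' ≤ 1 → C.v i c * z ≤ 1) : z ≤ z' := by
  by_contra hz
  have hz := not_le.1 hz
  have h0 : z ≠ 0 := (zero_le.trans_lt hz).ne'
  obtain ⟨c, hc⟩ := C.exists_val i (1 - log z)
  rw [← exp_log h0] at hz h
  have h1 := h c (by
    rcases eq_or_ne z' 0 with rfl | h2
    · simp
    · rw [← exp_log h2, exp_lt_exp] at hz
      rw [hc, ← exp_log h2, ← exp_add, ← exp_zero, exp_le_exp]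
      omega)
  rw [hc, ← exp_add, ← exp_zero, exp_le_exp] at h1
  omega

/-- A family of ultrametric norms on `W`, almost all of them standard. -/
structure AL (C : VC k I) (W : Type) [AddCommGroup W] [Module k W] where
  N : I → W → Zm
  smul : ∀ i c x, N i (c • x) = C.v i c * N i x
  add : ∀ i x y, N i (x + y) ≤ max (N i x) (N i y)
  fin : ∀ x, ∃ M : I →₀ ℤ, ∀ i, N i x ≤ exp (M i)
  bd : ∀ φ : W →ₗ[k] k, ∃ M : I →₀ ℤ, ∀ i x, C.v i (φ x) ≤ exp (M i) * N i x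

namespace AL

variable {C : VC k I} {W U : Type} [AddCommGroup W] [Module k W] [AddCommGroup U] [Module k U]
  (A : AL C W)

theorem N_zero (i : I) : A.N i 0 = 0 := by
  rw [← zero_smul k (0 : W), A.smul, map_zero, zero_mul]

theorem N_ne (i : I) {x : W} (hx : x ≠ 0) : A.N i x ≠ 0 := fun h => by
  obtain ⟨φ, hφ⟩ := Module.Projective.exists_dual_ne_zero k hx
  obtain ⟨M, hM⟩ := A.bd φ
  exact hφ (by simpa [h] using hM i x)

theorem add_le {i : I} {x y : W} {z : Zm} (hx : A.N i x ≤ z) (hy : A.N i y ≤ z) :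
    A.N i (x + y) ≤ z := (A.add i x y).trans (max_le hx hy)

theorem sub_le {i : I} {x y : W} {z : Zm} (hx : A.N i x ≤ z) (hy : A.N i y ≤ z) :
    A.N i (x - y) ≤ z := by
  rw [sub_eq_add_neg, ← neg_one_smul k y]
  exact A.add_le hx (by rwa [A.smul, Valuation.map_neg, map_one, one_mul])

theorem sum_le {ι : Type} {i : I} {s : Finset ι} {x : ι → W} {z : Zm}
    (h : ∀ l ∈ s, A.N i (x l) ≤ z) : A.N i (∑ l ∈ s, x l) ≤ z :=
  Finset.sum_induction x (fun y => A.N i y ≤ z) (fun _ _ => A.add_le)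
    (A.N_zero i ▸ zero_le) h

/-- It is enough to bound a homogeneous function on the unit ball. -/
theorem le_of_ball (i : I) (φ : W →ₗ[k] k) {z : Zm} (h : ∀ x, A.N i x ≤ 1 → C.v i (φ x) ≤ z)
    (x : W) : C.v i (φ x) ≤ z * A.N i x := by
  rcases eq_or_ne x 0 with rfl | hx
  · simp
  have h0 := A.N_ne i hx
  obtain ⟨c, hc⟩ := C.exists_val i (-log (A.N i x))
  rw [exp_neg, exp_log h0] at hc
  have := h (c • x) (by rw [A.smul, hc, inv_mul_cancel₀ h0])
  rwa [map_smul, smul_eq_mul, map_mul, hc, inv_mul_le_iff₀ (zero_lt_iff.2 h0), mul_comm] at this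

/-- The norms induced on a subspace. -/
def comap (f : U →ₗ[k] W) (hf : Function.Injective f) : AL C U where
  N i x := A.N i (f x)
  smul i c x := by rw [map_smul, A.smul]
  add i x y := by rw [map_add]; exact A.add i _ _
  fin x := A.fin (f x)
  bd φ := by
    obtain ⟨g, hg⟩ := f.exists_leftInverse_of_injective (LinearMap.ker_eq_bot.2 hf)
    obtain ⟨M, hM⟩ := A.bd (φ ∘ₗ g)
    refine ⟨M, fun i x => ?_⟩
    have := hM i (f x)
    rwa [LinearMap.comp_apply, ← LinearMap.comp_apply g, hg] at this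

/-- The sections of the lattice twisted by `M`. -/
def Γ [Module ℂ W] [IsScalarTower ℂ k W] (M : I →₀ ℤ) : Submodule ℂ W where
  carrier := {x | ∀ i, A.N i x ≤ exp (M i)}
  add_mem' hx hy i := A.add_le (hx i) (hy i)
  zero_mem' i := A.N_zero i ▸ zero_le
  smul_mem' c x hx i := by
    rw [← algebraMap_smul k c x, A.smul]
    exact (mul_le_mul' (C.triv i c) (hx i)).trans_eq (one_mul _)

end AL

end

end Pool.Agent.Lib.MP_bc213e_ag.SB
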