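import Pool.Agent.Lib.MP_bc213e_ag.SB.L.Bas

/-! The degree of a family of norms. -/

namespace Pool.Agent.Lib.MP_bc213e_ag.SB.AL

open Pool.Agent.Lib.MP_bc213e_ag.Hyp WithZero Module Filter

noncomputable section

variable {k I ι : Type} [Field k] [Algebra ℂ k] {C : VC k I} {W U : Type} [AddCommGroup W]
  [Module k W] [AddCommGroup U] [Module k U] [Fintype ι] [DecidableEq ι] (A : AL C W)

/-- `exp (E i)` is the largest value of the determinant on the unit ball. -/
def Top (b : Basis ι k W) (E : I →₀ ℤ) : Prop :=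
  ∀ i, (∃ x : ι → W, (∀ l, A.N i (x l) ≤ 1) ∧ C.v i (b.det x) = exp (E i)) ∧
    ∀ x : ι → W, (∀ l, A.N i (x l) ≤ 1) → C.v i (b.det x) ≤ exp (E i)

/-- Orthonormal bases, almost all equal to `b`. -/
structure Fr (b : Basis ι k W) (e : I → Basis ι k W) (E : I →₀ ℤ) : Prop where
  le1 : ∀ i l, A.N i (e i l) ≤ 1
  co : ∀ i x l, C.v i ((e i).repr x l) ≤ A.N i x
  ae : ∀ᶠ i in cofinite, e i = b
  det : ∀ i, C.v i (b.det (e i)) = exp (E i)

theorem top_of_gen {b : Basis ι k W} {E : I →₀ ℤ} (e : I → ι → W) (h1 : ∀ i l, A.N i (e i l) ≤ 1)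
    (h2 : ∀ i x, A.N i x ≤ 1 → ∃ c : ι → k, (∀ l, C.v i (c l) ≤ 1) ∧ x = ∑ l, c l • e i l)
    (h3 : ∀ i, C.v i (b.det (e i)) = exp (E i)) : A.Top b E := fun i => by
  refine ⟨⟨e i, h1 i, h3 i⟩, fun x hx => ?_⟩
  choose c hc e' using fun l => h2 i _ (hx l)
  have : b.toMatrix x = b.toMatrix (e i) * Matrix.of fun l m => c m l := by
    ext l m
    simp [Basis.toMatrix_apply, e' m, Matrix.mul_apply, mul_comm]
  rw [Basis.det_apply, this, Matrix.det_mul, map_mul, ← Basis.det_apply, h3]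
  exact mul_le_of_le_one_right' ((val_det_le _ _ (fun _ => 1) fun l m => hc m l).trans_eq
    Finset.prod_const_one)

variable {A} in
theorem Fr.top {b : Basis ι k W} {e : I → Basis ι k W} {E : I →₀ ℤ} (h : A.Fr b e E) : A.Top b E :=
  A.top_of_gen (fun i => e i) h.le1
    (fun i x hx => ⟨(e i).repr x, fun l => (h.co i x l).trans hx, ((e i).sum_repr x).symm⟩) h.det

variable {A} in
theorem Fr.N_le {b : Basis ι k W} {e : I → Basis ι k W} {E : I →₀ ℤ} (h : A.Fr b e E) {i : I}
    {x : W} {z : Zm} (hx : ∀ l, C.v i ((e i).repr x l) ≤ z) : A.N i x ≤ z := by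
  rw [← (e i).sum_repr x]
  exact A.sum_le fun l _ => by
    rw [A.smul]
    exact (mul_le_mul' (hx l) (h.le1 i l)).trans_eq (mul_one _)

theorem exists_on (b : Basis ι k W) (i : I) : ∃ e : Basis ι k W, (∀ l, A.N i (e l) ≤ 1) ∧
    ∀ x l, C.v i (e.repr x l) ≤ A.N i x := by
  choose M hM using fun l => A.bd (b.coord l)
  choose M' hM' using fun l => A.fin (b l)
  choose c hc using fun l => C.exists_val i (-M' l i)
  have h0 : ∀ l, A.N i (c l • b l) ≤ 1 := fun l => by
    rw [A.smul, hc]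
    exact (mul_le_mul_right (hM' l i) _).trans_eq (by rw [← exp_add, neg_add_cancel, exp_zero])
  obtain ⟨x, hx, h⟩ := exists_max (S := {x : ι → W | ∀ l, A.N i (x l) ≤ 1})
    (fun x => C.v i (b.det x)) (z := ∏ l, exp (M l i)) (fun x hx => by
      rw [Basis.det_apply, ← Matrix.det_transpose]
      exact val_det_le _ _ _ fun l m =>
        (hM m i (x l)).trans (mul_le_of_le_one_right' (hx l))) ⟨_, h0⟩
  have h1 : b.det x ≠ 0 := fun e => by
    have := h _ h0
    rw [e, map_zero, le_zero_iff, AlternatingMap.map_smul_univ, Basis.det_self, smul_eq_mul,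
      mul_one, map_prod, Finset.prod_eq_zero_iff] at this
    obtain ⟨l, -, hl⟩ := this
    exact exp_ne_zero (hc l ▸ hl)
  obtain ⟨l1, l2⟩ := b.is_basis_iff_det.2 (Ne.isUnit h1)
  obtain ⟨e, rfl⟩ : ∃ e : Basis ι k W, ⇑e = x := ⟨Basis.mk l1 l2.ge, Basis.coe_mk _ _⟩
  refine ⟨e, hx, fun y l => (A.le_of_ball i (e.coord l) (fun y hy => ?_) y).trans_eq (one_mul _)⟩
  have := h (Function.update e l y) fun m => by
    rcases eq_or_ne m l with rfl | hm
    · rwa [Function.update_self]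
    · rw [Function.update_of_ne hm]; exact hx m
  rw [det_upd, map_mul] at this
  exact (mul_le_iff_le_one_left (zero_lt_iff.2 ((Valuation.ne_zero_iff _).2 h1))).1 this

theorem exists_fr (b : Basis ι k W) : ∃ e E, A.Fr b e E := by
  classical
  choose M hM using fun l => A.bd (b.coord l)
  choose M' hM' using fun l => A.fin (b l)
  choose e h1 h2 using A.exists_on b
  have h3 : ∀ᶠ i in cofinite, (∀ l, M l i = 0) ∧ ∀ l, M' l i = 0 :=
    (eventually_all.2 fun l => ev_zero _).and (eventually_all.2 fun l => ev_zero _)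
  let e' : I → Basis ι k W := fun i => if (∀ l, M l i = 0) ∧ ∀ l, M' l i = 0 then b else e i
  have h4 : ∀ᶠ i in cofinite, e' i = b := h3.mono fun i hi => if_pos hi
  obtain ⟨E, hE⟩ := exists_div (fun i => C.v i (b.det (e' i)))
    (fun i => (Valuation.ne_zero_iff _).2 (b.isUnit_det _).ne_zero)
    (h4.mono fun i hi => by rw [hi, Basis.det_self, map_one])
  refine ⟨e', E, fun i l => ?_, fun i x l => ?_, h4, hE⟩ <;> simp only [e'] <;> split_ifs with h
  · simpa [h.2] using hM' l i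
  · exact h1 i l
  · simpa [h.1] using hM l i x
  · exact h2 i x l

variable [FiniteDimensional k W]

/-- The degree. -/
def deg : ℚ := dg C.d (A.exists_fr (finBasis k W)).choose_spec.choose

variable {A} in
theorem Top.deg_eq {b : Basis ι k W} {E : I →₀ ℤ} (h : A.Top b E) : A.deg = dg C.d E := by
  have h₀ := (A.exists_fr (finBasis k W)).choose_spec.choose_spec.top
  unfold deg
  generalize (A.exists_fr (finBasis k W)).choose_spec.choose = E₀ at h₀
  generalize finBasis k W = b₀ at h₀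
  let σ := b.indexEquiv b₀
  obtain ⟨M, hM, h0⟩ := C.pf _ ((b.reindex σ).isUnit_det b₀).ne_zero
  have h1 : ∀ i x, C.v i (b.det (x ∘ σ)) = exp (M i) * C.v i (b₀.det x) := fun i x => by
    rw [← Basis.det_reindex, ← hM, ← map_mul]
    exact congrArg _ (DFunLike.congr_fun ((b.reindex σ).det.eq_smul_basis_det b₀) x)
  have : E = M + E₀ := Finsupp.ext fun i => by
    obtain ⟨⟨x, hx, e⟩, h2⟩ := h i
    obtain ⟨⟨y, hy, e'⟩, h3⟩ := h₀ i
    have h4 := h2 (y ∘ σ) fun l => hy _
    have h5 := mul_le_mul_right (h3 (x ∘ σ.symm) fun l => hx _) (exp (M i))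
    rw [h1, e', ← exp_add, exp_le_exp] at h4
    rw [← h1, Function.comp_assoc, σ.symm_comp_self, Function.comp_id, e, ← exp_add,
      exp_le_exp] at h5
    exact le_antisymm h5 h4
  rw [this, dg_add, h0, zero_add]

omit [FiniteDimensional k W] in
/-- The exact bound of a functional. -/
theorem exists_ex {φ : W →ₗ[k] k} (hφ : φ ≠ 0) : ∃ (M : I →₀ ℤ) (y : I → W),
    (∀ i x, C.v i (φ x) ≤ exp (M i) * A.N i x) ∧ (∀ i, φ (y i) = 1) ∧
      ∀ i, A.N i (y i) = exp (-M i) := by
  obtain ⟨y₀, hy⟩ := LinearMap.surjective hφ 1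
  obtain ⟨M, hM⟩ := A.bd φ
  obtain ⟨M', hM'⟩ := A.fin y₀
  have h0 : ∀ i x, φ x = 1 → A.N i x ≠ 0 := fun i x hx =>
    A.N_ne i fun e => by simp [e] at hx
  have h1 : ∀ i x, φ x = 1 → (A.N i x)⁻¹ ≤ exp (M i) := fun i x hx => by
    have := hM i x
    rwa [hx, map_one, ← mul_inv_le_iff₀ (zero_lt_iff.2 (h0 i x hx)), one_mul] at this
  choose y h2 h3 using fun i => exists_max (S := {x | φ x = 1}) (fun x => (A.N i x)⁻¹) (h1 i)
    ⟨y₀, hy⟩
  obtain ⟨E, hE⟩ := exists_div (fun i => (A.N i (y i))⁻¹) (fun i => inv_ne_zero (h0 i _ (h2 i)))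
    (((ev_zero M).and (ev_zero M')).mono fun i hi => le_antisymm
      (by simpa [hi.1] using h1 i _ (h2 i)) (le_trans
        ((one_le_inv₀ (zero_lt_iff.2 (h0 i _ hy))).2 (by simpa [hi.2] using hM' i)) (h3 i _ hy)))
  refine ⟨E, y, fun i x => ?_, h2, fun i => by rw [exp_neg, ← hE, inv_inv]⟩
  rcases eq_or_ne (φ x) 0 with h | h
  · simp [h]
  have h4 := h3 i ((φ x)⁻¹ • x) (by simp [h])
  have h5 : A.N i x ≠ 0 := A.N_ne i fun e => h (by simp [e])
  rwa [hE, A.smul, map_inv₀, mul_inv, inv_inv, mul_inv_le_iff₀ (zero_lt_iff.2 h5)] at h4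

omit [FiniteDimensional k W] in
theorem proj_le {φ : W →ₗ[k] k} {i : I} {n : ℤ} {y : W}
    (h1 : ∀ x, C.v i (φ x) ≤ exp n * A.N i x) (h3 : A.N i y = exp (-n)) (x : W) :
    A.N i (x - φ x • y) ≤ A.N i x :=
  A.sub_le le_rfl (by
    rw [A.smul, h3]
    exact (mul_le_mul_left (h1 x) _).trans_eq (by
      rw [mul_right_comm, ← exp_add, add_neg_cancel, exp_zero, one_mul]))

theorem deg_add [FiniteDimensional k U] (f : U →ₗ[k] W) (hf : Function.Injective f)
    {φ : W →ₗ[k] k} (hφ : LinearMap.range f = LinearMap.ker φ) {M : I →₀ ℤ} {y : I → W} {y₀ : W}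
    (h0 : φ y₀ = 1) (h1 : ∀ i x, C.v i (φ x) ≤ exp (M i) * A.N i x) (h2 : ∀ i, φ (y i) = 1)
    (h3 : ∀ i, A.N i (y i) = exp (-M i)) : A.deg = (A.comap f hf).deg + dg C.d M := by
  obtain ⟨e, E, h⟩ := (A.comap f hf).exists_fr (finBasis k U)
  obtain ⟨b, hb⟩ := exists_basis_cons (finBasis k U) f hf φ hφ h0
  choose c hc using fun i => C.exists_val i (M i)
  have hc0 : ∀ i, c i ≠ 0 := fun i e => exp_ne_zero (by rw [← hc i, e, map_zero])
  rw [h.top.deg_eq, ← dg_add]
  refine (A.top_of_gen (b := b) (fun i => Fin.cons (c i • y i) fun l => f (e i l))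
    (fun i l => ?_) (fun i x hx => ?_) fun i => ?_).deg_eq
  · refine Fin.cases ?_ (h.le1 i) l
    rw [Fin.cons_zero, A.smul, hc, h3, ← exp_add, add_neg_cancel, exp_zero]
  · obtain ⟨u, hu⟩ : x - φ x • y i ∈ LinearMap.range f := by simp [hφ, h2]
    have h4 : (A.comap f hf).N i u ≤ 1 :=
      ((congrArg (A.N i) hu).trans_le (A.proj_le (h1 i) (h3 i) x)).trans hx
    refine ⟨Fin.cons (φ x / c i) ((e i).repr u), fun l => ?_, ?_⟩
    · refine Fin.cases ?_ (fun l => (h.co i u l).trans h4) l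
      rw [Fin.cons_zero, map_div₀, hc, div_le_one₀ exp_pos]
      exact (h1 i x).trans (mul_le_of_le_one_right' hx)
    · simp only [Fin.sum_univ_succ, Fin.cons_zero, Fin.cons_succ, smul_smul,
        div_mul_cancel₀ _ (hc0 i), ← map_smul, ← map_sum, Basis.sum_repr, hu, add_sub_cancel]
  · rw [hb, map_smul, h2, smul_eq_mul, mul_one, map_mul, hc, h.det, Finsupp.add_apply, exp_add,
      mul_comm]

omit [FiniteDimensional k W] in
/-- Smaller lattices have smaller determinants. -/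
theorem Top.mono {A' : AL C W} {b : Basis ι k W} {E E' : I →₀ ℤ} (h : A.Top b E) (h' : A'.Top b E')
    {i : I} (hi : ∀ x, A.N i x ≤ A'.N i x) : E' i ≤ E i := by
  obtain ⟨x, hx, e⟩ := (h' i).1
  exact exp_le_exp.1 (e ▸ (h i).2 x fun l => (hi _).trans (hx l))

omit [FiniteDimensional k W] in
theorem Top.lt {A' : AL C W} {b : Basis ι k W} {e : I → Basis ι k W} {E E' : I →₀ ℤ}
    (h : A.Top b E) (h' : A'.Fr b e E') {i : I} (hi : ∀ x, A.N i x ≤ A'.N i x) {x : W}
    (h1 : A.N i x ≤ 1) (h2 : 1 < A'.N i x) : E' i < E i := by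
  obtain ⟨l, hl⟩ : ∃ l, 1 < C.v i ((e i).repr x l) := by
    by_contra hn
    push Not at hn
    exact h2.not_ge (h'.N_le hn)
  have := (h i).2 (Function.update (e i) l x) fun m => by
    rcases eq_or_ne m l with rfl | hm
    · rwa [Function.update_self]
    · rw [Function.update_of_ne hm]; exact (hi _).trans (h'.le1 i m)
  rw [det_upd, map_mul, h'.det] at this
  exact exp_lt_exp.1 ((lt_mul_of_one_lt_left exp_pos hl).trans_le this)

omit [FiniteDimensional k W] [DecidableEq ι] in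
theorem sup_smul (i : I) (c : k) (x : ι → k) :
    (Finset.univ.sup fun l => C.v i (c * x l)) = C.v i c * Finset.univ.sup fun l => C.v i (x l) := by
  simp only [map_mul]
  exact (Finset.apply_sup_eq_sup_comp (g := fun z => C.v i c * z) (fun _ _ => mul_max _ _ _)
    (mul_zero _)).symm

omit [FiniteDimensional k W] in
/-- The norms with given orthonormal bases. -/
def ofBases (C : VC k I) (b : Basis ι k W) (e : I → Basis ι k W) (h : ∀ᶠ i in cofinite, e i = b) :
    AL C W where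
  N i x := Finset.univ.sup fun l => C.v i ((e i).repr x l)
  smul i c x := by simpa using sup_smul i c fun l => (e i).repr x l
  add i x y := Finset.sup_le fun l hl => by
    rw [map_add, Finsupp.add_apply]
    exact ((C.v i).map_add _ _).trans (max_le_max
      (Finset.le_sup (f := fun l => C.v i ((e i).repr x l)) hl)
      (Finset.le_sup (f := fun l => C.v i ((e i).repr y l)) hl))
  fin x := exists_bd _ ((h.and (eventually_all.2 fun l => C.ev_le (b.repr x l))).mono
    fun i hi => Finset.sup_le fun l _ => hi.1 ▸ hi.2 l)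
  bd φ := by
    obtain ⟨M, hM⟩ := exists_bd (fun i => Finset.univ.sup fun l => C.v i (φ (e i l)))
      ((h.and (eventually_all.2 fun l => C.ev_le (φ (b l)))).mono
        fun i hi => Finset.sup_le fun l _ => hi.1 ▸ hi.2 l)
    refine ⟨M, fun i x => ?_⟩
    conv_lhs => rw [← (e i).sum_repr x, map_sum]
    refine (C.v i).map_sum_le fun l hl => ?_
    rw [map_smul, smul_eq_mul, map_mul, mul_comm]
    exact mul_le_mul' ((Finset.le_sup (f := fun l => C.v i (φ (e i l))) hl).trans (hM i))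
      (Finset.le_sup (f := fun l => C.v i ((e i).repr x l)) hl)

omit [FiniteDimensional k W] [DecidableEq ι] in
theorem ofBases_le {b : Basis ι k W} {e : I → Basis ι k W} {h : ∀ᶠ i in cofinite, e i = b} {i : I}
    {x : W} {z : Zm} : (ofBases C b e h).N i x ≤ z ↔ ∀ l, C.v i ((e i).repr x l) ≤ z :=
  Finset.sup_le_iff.trans (by simp)

omit [FiniteDimensional k W] in
theorem fr_ofBases {b : Basis ι k W} {e : I → Basis ι k W} (h : ∀ᶠ i in cofinite, e i = b)
    {E : I →₀ ℤ} (hE : ∀ i, C.v i (b.det (e i)) = exp (E i)) : (ofBases C b e h).Fr b e E :=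
  ⟨fun i l => ofBases_le.2 fun m => by
    rw [Basis.repr_self, Finsupp.single_apply]
    split_ifs <;> simp, fun _ _ => ofBases_le.1 le_rfl, h, hE⟩

end

end Pool.Agent.Lib.MP_bc213e_ag.SB.AL
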