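import Pool.Agent.Lib.MP_bc213e_ag.SB.L.Bas

/-! The norms attached to the multiplicative lattices. -/

namespace Pool.Agent.Lib.MP_bc213e_ag.SB.Lat

open Pool.Agent.Lib.MP_bc213e_ag.Hyp WithZero Module

variable {k I : Type} [Field k] [Algebra ℂ k] {C : VC k I} {K : Type} [Field K] [Algebra ℂ K]
  [Algebra k K] [IsScalarTower ℂ k K] (A : Lat C K)

/-- Write `c = c₁ * (c / c₁)` with `v c₁ = exp (-M i)` (`VC.exists_val`). -/
theorem Γ_mul {a a' : ℕ} {M M' : I →₀ ℤ} {w w' : K} (h : w ∈ A.Γ a M) (h' : w' ∈ A.Γ a' M') :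
    w * w' ∈ A.Γ (a + a') (M + M') := by
  intro i c hc
  obtain ⟨c₁, h1⟩ := C.exists_val i (-M i)
  have h2 : c₁ ≠ 0 := fun e => exp_ne_zero (by rw [← h1, e, map_zero])
  have h3 := A.mul _ _ i _ (h i c₁ h1.le) _ (h' i (c / c₁) (by
    rwa [map_div₀, h1, div_le_iff₀ (zero_lt_iff.2 exp_ne_zero), ← exp_add, ← neg_add, add_comm]))
  rwa [smul_mul_smul_comm, mul_div_cancel₀ _ h2] at h3

theorem one_mem_Γ (a : ℕ) : (1 : K) ∈ A.Γ a 0 :=
  fun i c hc => A.smul a i c (by simpa using hc) _ (A.one a i)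

theorem Γ_pow {a : ℕ} {M : I →₀ ℤ} {w : K} (h : w ∈ A.Γ a M) (s : ℕ) :
    w ^ s ∈ A.Γ (s * a) (s • M) := by
  induction s with
  | zero => simpa using A.one_mem_Γ 0
  | succ s ih =>
    rw [pow_succ, Nat.succ_mul, succ_nsmul]
    exact A.Γ_mul ih h

theorem mem_V {a t : ℕ} {w : K} (h : w ∈ A.Γ a (t • C.D)) : w ∈ A.V a :=
  Submodule.subset_span ⟨t, h⟩

theorem one_mem_V (a : ℕ) : (1 : K) ∈ A.V a := A.mem_V (t := 0) (by simpa using A.one_mem_Γ a)

theorem Γ_mono {a : ℕ} {M M' : I →₀ ℤ} (h : M ≤ M') : A.Γ a M ≤ A.Γ a M' :=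
  fun _ hx i c hc => hx i c (hc.trans (exp_le_exp.2 (neg_le_neg (h i))))

theorem V_mul {a a' : ℕ} {x y : K} (hx : x ∈ A.V a) (hy : y ∈ A.V a') : x * y ∈ A.V (a + a') := by
  refine (?_ : A.V a * A.V a' ≤ _) (Submodule.mul_mem_mul hx hy)
  rw [V, V, Submodule.span_mul_span, Submodule.span_le]
  rintro _ ⟨x, ⟨t, hx⟩, y, ⟨t', hy⟩, rfl⟩
  exact A.mem_V (t := t + t') (add_nsmul C.D t t' ▸ A.Γ_mul hx hy)

omit [Algebra ℂ K] [IsScalarTower ℂ k K] in
theorem prod_mem_Λ {a j : ℕ} {i : I} {x : Fin j → K} (h : ∀ s, x s ∈ A.Λ a i) :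
    ∏ s, x s ∈ A.Λ (j * a) i := by
  induction j with
  | zero => simpa using A.one 0 i
  | succ j ih =>
    rw [Fin.prod_univ_castSucc, Nat.succ_mul]
    exact A.mul _ _ i _ (ih fun s => h _) _ (h _)

/-- `MultilinearMap.mkPiAlgebra`, `compLinearMap`, `codRestrict`. -/
theorem exists_mul (a j : ℕ) : ∃ m : MultilinearMap k (fun _ : Fin j => A.V a) (A.V (j * a)),
    ∀ x, (m x : K) = ∏ s, (x s : K) := by
  have h : ∀ (j : ℕ) (x : Fin j → A.V a), ∏ s, (x s : K) ∈ A.V (j * a) := fun j x => by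
    induction j with
    | zero => simpa using A.one_mem_V 0
    | succ j ih =>
      rw [Fin.prod_univ_castSucc, Nat.succ_mul]
      exact A.V_mul (ih _) (x _).2
  exact ⟨((MultilinearMap.mkPiAlgebra k (Fin j) K).compLinearMap fun _ =>
    (A.V a).subtype).codRestrict _ (h j), fun _ => rfl⟩

/-- The unit balls of the norms `B` are the lattices of level `a`. -/
def IsAL (a : ℕ) (B : AL C (A.V a)) : Prop :=
  ∀ i (x : A.V a), B.N i x ≤ 1 ↔ (x : K) ∈ A.Λ a i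

theorem exists_al_fin {a : ℕ} {x : K} (hx : x ∈ A.V a) : ∃ M, x ∈ A.Γ a M := by
  induction hx using Submodule.span_induction with
  | mem x h => exact h.elim fun t h => ⟨_, h⟩
  | zero => exact ⟨0, zero_mem _⟩
  | add x y _ _ h h' =>
    obtain ⟨M, h⟩ := h
    obtain ⟨M', h'⟩ := h'
    exact ⟨M ⊔ M', add_mem (A.Γ_mono le_sup_left h) (A.Γ_mono le_sup_right h')⟩
  | smul c x _ h =>
    obtain ⟨M, h⟩ := h
    rcases eq_or_ne c 0 with rfl | hc
    · exact ⟨0, by rw [zero_smul]; exact zero_mem _⟩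
    obtain ⟨M', hM, -⟩ := C.pf c hc
    refine ⟨M + M', fun i e he => ?_⟩
    rw [smul_smul]
    refine h i _ ?_
    rw [map_mul, hM]
    refine (mul_le_mul_left he _).trans_eq ?_
    rw [← exp_add, Finsupp.add_apply, neg_add, neg_add_cancel_right]

theorem exists_al_norm {a : ℕ} (i : I) (x : A.V a) :
    ∃ z : Zm, ∀ c : k, c • (x : K) ∈ A.Λ a i ↔ C.v i c * z ≤ 1 := by
  rcases eq_or_ne (x : K) 0 with h0 | h0
  · exact ⟨0, fun c => by simp [h0]⟩
  obtain ⟨φ, hφ⟩ := Module.Projective.exists_dual_eq_one k h0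
  obtain ⟨M, hM⟩ := A.bd a φ
  obtain ⟨M', h'⟩ := A.exists_al_fin x.2
  obtain ⟨c₁, h1⟩ := C.exists_val i (-M' i)
  obtain ⟨c₀, h2, h3⟩ := exists_max (S := {c : k | c • (x : K) ∈ A.Λ a i}) (C.v i)
    (fun c hc => by simpa [hφ] using hM i _ hc) ⟨c₁, h' i c₁ h1.le⟩
  have h4 : 0 < C.v i c₀ := (h1 ▸ exp_pos).trans_le (h3 c₁ (h' i c₁ h1.le))
  refine ⟨(C.v i c₀)⁻¹, fun c => ⟨fun h => (mul_inv_le_iff₀ h4).2 (by simpa using h3 c h),
    fun h => ?_⟩⟩
  rw [← mul_inv_cancel_right₀ ((Valuation.pos_iff _).1 h4) c, mul_right_comm, mul_smul]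
  exact A.smul a i _ (by rwa [map_mul, map_inv₀]) _ h2

/-- The norms whose unit balls are the lattices. -/
theorem exists_al (a : ℕ) : ∃ B : AL C (A.V a), A.IsAL a B := by
  choose N hN using A.exists_al_norm (a := a)
  have hs : ∀ i (c e : k) x, C.v i e * N i (c • x) ≤ 1 ↔ C.v i e * (C.v i c * N i x) ≤ 1 :=
    fun i c e x => by rw [← hN, ← mul_assoc, ← map_mul, ← hN, Submodule.coe_smul, smul_smul]
  refine ⟨⟨N, fun i c x => le_antisymm (C.le_of_forall i fun e => (hs i c e x).2)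
    (C.le_of_forall i fun e => (hs i c e x).1), fun i x y => C.le_of_forall i fun c h => ?_,
    fun x => (A.exists_al_fin x.2).imp fun M hM i => C.le_of_forall i fun c h => ?_,
    fun φ => ?_⟩, fun i x => ?_⟩
  · rw [← hN, Submodule.coe_add, smul_add]
    exact add_mem ((hN ..).2 ((mul_le_mul_right (le_max_left _ _) _).trans h))
      ((hN ..).2 ((mul_le_mul_right (le_max_right _ _) _).trans h))
  · exact (hN ..).1 (hM i c (by rwa [exp_neg, ← one_mul (_⁻¹ : Zm), le_mul_inv_iff₀ exp_pos]))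
  · obtain ⟨ψ, rfl⟩ := φ.exists_extend
    refine (A.bd a ψ).imp fun M hM i x => C.le_of_forall i fun c h => ?_
    obtain ⟨e, he⟩ := C.exists_val i (M i)
    have h1 := hM i _ ((hN i x (c * e)).2 (by rwa [map_mul, he, mul_assoc]))
    rwa [map_smul, smul_eq_mul, map_mul, map_mul, he, mul_right_comm,
      mul_le_iff_le_one_left exp_pos] at h1
  · simpa using (hN i x 1).symm

variable {A} {a : ℕ} {B : AL C (A.V a)}

/-- `B.smul`, `VC.exists_val`. -/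
theorem IsAL.mem_Γ (h : A.IsAL a B) (M : I →₀ ℤ) (x : A.V a) :
    x ∈ B.Γ M ↔ (x : K) ∈ A.Γ a M := by
  refine ⟨fun hx i c hc => (h i (c • x)).1 ?_, fun hx i => ?_⟩
  · rw [B.smul]
    refine (mul_le_mul' hc (hx i)).trans_eq ?_
    rw [← exp_add, neg_add_cancel, exp_zero]
  · obtain ⟨c, hc⟩ := C.exists_val i (-M i)
    have h1 := (h i (c • x)).2 (hx i c hc.le)
    rwa [B.smul, hc, exp_neg, inv_mul_le_iff₀ exp_pos, mul_one] at h1

/-- `Submodule.equivMapOfInjective` for the map `subtype ∘ f` restricted to `ℂ`. -/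
theorem IsAL.rank_comap (h : A.IsAL a B) {U : Type} [AddCommGroup U] [Module k U] [Module ℂ U]
    [IsScalarTower ℂ k U] (f : U →ₗ[k] A.V a) (hf : Function.Injective f) (M : I →₀ ℤ) :
    finrank ℂ ((B.comap f hf).Γ M) =
      finrank ℂ ↥(A.Γ a M ⊓ (LinearMap.range ((A.V a).subtype ∘ₗ f)).restrictScalars ℂ) := by
  have hg : Function.Injective (((A.V a).subtype ∘ₗ f).restrictScalars ℂ) :=
    Subtype.val_injective.comp hf
  have e : ((B.comap f hf).Γ M).map (((A.V a).subtype ∘ₗ f).restrictScalars ℂ) =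
      A.Γ a M ⊓ (LinearMap.range ((A.V a).subtype ∘ₗ f)).restrictScalars ℂ := by
    ext y
    constructor
    · rintro ⟨x, hx, rfl⟩
      exact ⟨(h.mem_Γ M (f x)).1 hx, x, rfl⟩
    · rintro ⟨hy, x, rfl⟩
      exact ⟨x, (h.mem_Γ M (f x)).2 hy, rfl⟩
  rw [← e]
  exact (Submodule.equivMapOfInjective _ hg _).finrank_eq

theorem IsAL.rank_Γ (h : A.IsAL a B) (t : ℕ) :
    finrank ℂ (B.Γ (t • C.D)) = finrank ℂ (A.Γ a (t • C.D)) := by
  have e : A.Γ a (t • C.D) ⊓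
      (LinearMap.range ((A.V a).subtype ∘ₗ LinearMap.id)).restrictScalars ℂ = A.Γ a (t • C.D) :=
    inf_eq_left.2 fun y hy => ⟨⟨y, A.mem_V hy⟩, rfl⟩
  have := h.rank_comap LinearMap.id Function.injective_id (t • C.D)
  rwa [e] at this

/-- `exists_basis_two` in `V (a + a')` with `S₀` the sections of some `t • D` and `S₁` the sections
of some `-G + t • D`; the span of `S₁` contains `w * V a` (`Γ_mul`), of dimension `finrank (V a)`. -/
theorem IsAL.exists_basis {a' : ℕ} {B : AL C (A.V (a + a'))} (h : A.IsAL (a + a') B)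
    [FiniteDimensional k (A.V (a + a'))] {w : K} {G : I →₀ ℤ} (hw : w ≠ 0) (hG : 0 ≤ G)
    (hΓ : w ∈ A.Γ a' (-G)) :
    ∃ (b : Basis (Fin (finrank k (A.V (a + a')))) k (A.V (a + a')))
      (J : Finset (Fin (finrank k (A.V (a + a'))))) (M : Fin (finrank k (A.V (a + a'))) → I →₀ ℤ),
      (∀ l i, B.N i (b l) ≤ exp (M l i)) ∧ (∀ l, dg C.d (M l) ≤ 0) ∧
      (∀ l ∈ J, dg C.d (M l) = -dg C.d G) ∧ finrank k (A.V a) ≤ J.card := by
  have hG0 : 0 ≤ dg C.d G := dg_zero C.d ▸ dg_mono C.d_nonneg (M := 0) hG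
  have ht : ∀ t : ℕ, dg C.d (t • C.D) = 0 := fun t => by rw [dg_nsmul, C.degD, mul_zero]
  have top : ∀ n : ℕ, Submodule.span k {x : A.V n | ∃ t : ℕ, (x : K) ∈ A.Γ n (t • C.D)} = ⊤ :=
    fun n => Submodule.span_span_coe_preimage
  obtain ⟨b, J, h₀, h₁, hJ⟩ := exists_basis_two
    (S₀ := {x : A.V (a + a') | ∃ t : ℕ, (x : K) ∈ A.Γ (a + a') (t • C.D)})
    (S₁ := {x : A.V (a + a') | ∃ t : ℕ, (x : K) ∈ A.Γ (a + a') (t • C.D + -G)})
    (fun x ⟨t, hx⟩ => ⟨t, A.Γ_mono (by simpa using hG) hx⟩) (top (a + a'))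
  have hM : ∀ l, ∃ M : I →₀ ℤ, b l ∈ B.Γ M ∧ dg C.d M ≤ 0 ∧ (l ∈ J → dg C.d M = -dg C.d G) := by
    intro l
    by_cases hl : l ∈ J
    · obtain ⟨t, hx⟩ := h₁ l hl
      have e : dg C.d (t • C.D + -G) = -dg C.d G := by rw [dg_add, ht, dg_neg, zero_add]
      exact ⟨_, (h.mem_Γ _ _).2 hx, e ▸ neg_nonpos.2 hG0, fun _ => e⟩
    · obtain ⟨t, hx⟩ := h₀ l
      exact ⟨_, (h.mem_Γ _ _).2 hx, (ht t).le, fun h' => absurd h' hl⟩
  choose M hM using hM
  refine ⟨b, J, M, fun l => (hM l).1, fun l => (hM l).2.1, fun l => (hM l).2.2, le_trans ?_ hJ⟩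
  have hw' : w ∈ A.V a' :=
    A.mem_V (t := 0) (A.Γ_mono (by simpa using hG) hΓ)
  let g : A.V a →ₗ[k] A.V (a + a') :=
    (LinearMap.mulRight k w ∘ₗ (A.V a).subtype).codRestrict _ fun x => A.V_mul x.2 hw'
  have hg : Function.Injective g := fun x y e =>
    Subtype.ext (mul_right_cancel₀ hw (congrArg Subtype.val e))
  rw [← LinearMap.finrank_range_of_inj hg, LinearMap.range_eq_map, ← top a, Submodule.map_span]
  refine Submodule.finrank_mono (Submodule.span_mono ?_)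
  rintro _ ⟨x, ⟨t, hx⟩, rfl⟩
  exact ⟨t, A.Γ_mul hx hΓ⟩

end Pool.Agent.Lib.MP_bc213e_ag.SB.Lat
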